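import Pool.Agent.H547.CV.D1

set_option autoImplicit false
set_option linter.unusedSectionVars false

namespace Pool.Agent.H547.CV

open Finset Pool.Agent.R439.PL Pool.Agent.H547
open scoped Nat

variable {p : ℕ} [hp : Fact p.Prime]

/-- the sign divided by `2` -/
def ee (N l : ℕ) : ℚ := if 2 * l < N then -1 / 2 else 1 / 2

theorem ee_sq (N l : ℕ) : ee N l ^ 2 = 1 / 4 := by
  unfold ee; split_ifs <;> norm_num

theorem half_mem (h2 : p ≠ 2) : (1 / 2 : ℚ) ∈ Zp p := by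
  rw [one_div]; exact (U2 h2).2.2

theorem quarter_mem (h2 : p ≠ 2) : (1 / 4 : ℚ) ∈ Zp p := by
  have := mul_mem (half_mem h2) (half_mem h2); norm_num at this ⊢; exact this

theorem ee_mem (h2 : p ≠ 2) (N l : ℕ) : ee N l ∈ Zp p := by
  unfold ee
  split_ifs
  · rw [neg_div]; exact neg_mem (half_mem h2)
  · exact half_mem h2

def om (N l : ℕ) : ℚ := (l : ℚ) * (w l * w (N - l)) / (N : ℚ)

section
variable {r : ℕ} (h2 : p ≠ 2) (hr : 1 ≤ r) (hO : S_O) (hW : S_W)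
include h2 hr hO

theorem omI {l : ℕ} (hl : 0 < l) (hlN : l < p ^ r) : I p 1 (om (p ^ r) l - ee (p ^ r) l) := hO p r h2 hr l hl hlN

theorem om_mem {l : ℕ} (hl : 0 < l) (hlN : l < p ^ r) : om (p ^ r) l ∈ Zp p := by
  have := add_mem (omI h2 hr hO hl hlN).mem (ee_mem h2 (p ^ r) l)
  rwa [sub_add_cancel] at this

end

section
variable {r : ℕ} (h2 : p ≠ 2) (hr : 1 ≤ r) (hW : S_W)
include h2 hr hW

theorem two_pow : I p 1 ((2 : ℚ) ^ (p ^ r - 1) - 1) := by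
  have h1 := (hW p r h2 hr).2.mono (by norm_num : 1 ≤ 2)
  have h3 : I p 1 (∑ j ∈ range (p ^ r / 2), ((p ^ r : ℕ) : ℚ) / ((j : ℚ) + 1)) := by
    apply I.sum
    intro j hj
    have hj' := mem_range.1 hj
    have := tI (p := p) hr (j := j + 1) (by omega) (by omega) (by omega)
    push_cast at this ⊢; exact this
  exact icg (h1.sub (h3.mulL (half_mem h2))) (by ring)

theorem four_pow : I p 1 ((4 : ℚ) ^ (p ^ r - 1) - 1) := by
  have h1 := two_pow h2 hr hW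
  have e : (4 : ℚ) ^ (p ^ r - 1) - 1 = ((2 : ℚ) ^ (p ^ r - 1) - 1) * ((2 : ℚ) ^ (p ^ r - 1) + 1) := by
    rw [show (4 : ℚ) = 2 ^ 2 by norm_num, ← pow_mul, mul_comm 2, pow_mul]; ring
  rw [e]
  exact h1.mulR (add_mem (pow_mem (nm 2) _) (one_mem _))

theorem w_mem (k : ℕ) : w k ∈ Zp p := by
  unfold w
  have h4 : U p (4 : ℚ) := by
    have := (U2 h2).mul (U2 h2); norm_num at this; exact this
  exact dmem (nat_mem _) (h4.pow k)

theorem wN : I p 1 (w (p ^ r) - 1 / 2) := by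
  have h1 := (hW p r h2 hr).1.mono (by norm_num : 1 ≤ 2)
  have h3 := (four_pow h2 hr hW).mulR (w_mem h2 hr hW (p ^ r))
  exact icg (h1.sub h3) (by ring)

variable (hO : S_O)
include hO

/-- edge terms -/
theorem al0C {l : ℕ} (hl : 0 < l) (hlN : l < p ^ r) :
    I p (2 * r + 2) ((l : ℚ) ^ 2 * ((p ^ r : ℕ) : ℚ) ^ 2 * h l 0 * h (p ^ r - l) (p ^ r) -
      ((p ^ r : ℕ) : ℚ) ^ 2 * (((p ^ r : ℕ) : ℚ) / l * (-1 / 2 * ee (p ^ r) l))) := by
  have ex := al0 (l := l) (j := p ^ r - l) hl (by omega)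
  rw [show l + (p ^ r - l) = p ^ r by omega] at ex
  rw [ex]
  have hw := wN h2 hr hW
  have hom := omI h2 hr hO hl hlN
  have homm := om_mem h2 hr hO hl hlN
  have hb := bin3 (p := p) hr (j := p ^ r - l) (by omega)
  have t1 := tI (p := p) hr (j := l) hl (by omega) (by omega)
  have t2 := tI (p := p) hr (j := p ^ r + (p ^ r - l)) (by omega) (by omega) (by omega)
  have e1 : ((p ^ r : ℕ) : ℚ) / ((p ^ r + (p ^ r - l) : ℕ) : ℚ) =
      -(((p ^ r : ℕ) : ℚ) / l) + 2 * (((p ^ r : ℕ) : ℚ) / l) * (((p ^ r : ℕ) : ℚ) / ((p ^ r + (p ^ r - l) : ℕ) : ℚ)) := by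
    have g1 : (l : ℚ) ≠ 0 := by positivity
    have g2 : ((p ^ r + (p ^ r - l) : ℕ) : ℚ) ≠ 0 := by
      have : 0 < p ^ r + (p ^ r - l) := by omega
      positivity
    have g3 : ((p ^ r + (p ^ r - l) : ℕ) : ℚ) = 2 * ((p ^ r : ℕ) : ℚ) - l := by
      rw [Nat.cast_add, Nat.cast_sub hlN.le]; ring
    rw [g3] at g2 ⊢
    generalize ((p ^ r : ℕ) : ℚ) = N at g2 ⊢
    have c : N / (2 * N - (l : ℚ)) * (2 * N - l) = N := div_mul_cancel₀ _ g2
    have d : N / (l : ℚ) * l = N := div_mul_cancel₀ _ g1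
    apply mul_right_cancel₀ g1
    linear_combination (1 - 2 * (N / (2 * N - (l : ℚ)))) * d - c
  set T := ((p ^ r : ℕ) : ℚ) / l with hT
  set T' := ((p ^ r : ℕ) : ℚ) / ((p ^ r + (p ^ r - l) : ℕ) : ℚ) with hT'
  set C := (((p ^ r + (p ^ r - l)).choose (p ^ r) : ℕ) : ℚ) with hC
  set o := (l : ℚ) * (w l * w (p ^ r - l)) / ((p ^ r : ℕ) : ℚ) with ho
  have homm' : o ∈ Zp p := homm
  have hom' : I p 1 (o - ee (p ^ r) l) := hom
  have hCm : C ∈ Zp p := nat_mem _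
  have hwm := w_mem h2 hr hW (p ^ r)
  have key : I p 1 (o * w (p ^ r) * C - 1 / 2 * ee (p ^ r) l) := by
    have a1 := (hom'.mulR (mul_mem hwm hCm))
    have a2 := (hw.mulR (mul_mem (ee_mem h2 (p ^ r) l) hCm))
    have a3 := (hb.mulR (mul_mem (half_mem h2) (ee_mem h2 (p ^ r) l)))
    exact icg ((a1.add a2).add a3) (by ring)
  refine N2 (y := o * w (p ^ r) * C * T' - T * (-1 / 2 * ee (p ^ r) l)) ?_ (by ring)
  have b1 := (t1.mul key).neg
  have b2 := (t1.mul t2).mulR (mul_mem (nm 2) (mul_mem (mul_mem homm' hwm) hCm))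
  refine icg (b1.add b2) ?_
  have : o * w (p ^ r) * C * T' = o * w (p ^ r) * C * (-T + 2 * T * T') := by rw [← e1]
  rw [this]; ring

/-- diagonal terms -/
theorem gaC {l : ℕ} (hl : 0 < l) (hlN : l < p ^ r) :
    I p (2 * r + 2) ((l : ℚ) ^ 2 * (((p ^ r : ℕ) : ℚ) - l) ^ 2 * h l l * h (p ^ r - l) (p ^ r - l) -
      ((p ^ r : ℕ) : ℚ) ^ 2 * (((p ^ r : ℕ) : ℚ) / l * (-1 / 4 * ee (p ^ r) l))) := by
  have ex := ga (l := l) (j := p ^ r - l) hl (by omega)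
  rw [show l + (p ^ r - l) = p ^ r by omega, Nat.cast_sub hlN.le] at ex
  rw [ex]
  have hom := omI h2 hr hO hl hlN
  have homm := om_mem h2 hr hO hl hlN
  have h4 := four_pow h2 hr hW
  have t1 := tI (p := p) hr (j := l) hl (by omega) (by omega)
  set T := ((p ^ r : ℕ) : ℚ) / l with hT
  set o := (l : ℚ) * (w l * w (p ^ r - l)) / ((p ^ r : ℕ) : ℚ) with ho
  have homm' : o ∈ Zp p := homm
  have hom' : I p 1 (o - ee (p ^ r) l) := hom
  have he := ee_mem h2 (p ^ r) l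
  have h4m : (4 : ℚ) ^ (p ^ r - 1) ∈ Zp p := pow_mem (nm 4) _
  refine N2 (y := T * (4 ^ (p ^ r - 1) * (T - 1) * o ^ 3 - (-1 / 4 * ee (p ^ r) l))) ?_ (by ring)
  refine I.mul (k := 1) (l := 1) t1 ?_
  have a1 := t1.mulR (mul_mem h4m (pow_mem homm' 3))
  have a2 := (h4.mulR (pow_mem homm' 3)).neg
  have a3 := (hom'.mulR (add_mem (add_mem (pow_mem homm' 2) (mul_mem homm' he)) (pow_mem he 2))).neg
  refine icg ((a1.add a2).add a3) ?_
  have := ee_sq (p ^ r) l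
  linear_combination (ee (p ^ r) l) * this

/-- off the antidiagonal -/
theorem offC {l i : ℕ} (hi : 0 < i) (hil : i < l) (hlN : l < p ^ r) (hne : l + i ≠ p ^ r) :
    I p (2 * r + 2) (((l : ℚ) ^ 2 * (((p ^ r : ℕ) : ℚ) - i) ^ 2 - (i : ℚ) ^ 2 * (((p ^ r : ℕ) : ℚ) - l) ^ 2) *
      (h l i * h (p ^ r - l) (p ^ r - i))) := by
  have hl : 0 < l := by omega
  rw [hh hl hi (by omega : 0 < p ^ r - l) (by omega : 0 < p ^ r - i) (by omega : l + (p ^ r - l) = p ^ r) (by omega : i + (p ^ r - i) = p ^ r)]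
  have m1 := om_mem h2 hr hO hl hlN
  have m2 := om_mem h2 hr hO hi (by omega)
  have t1 := tI (p := p) hr (j := l) hl (by omega) (by omega)
  have t2 := tI (p := p) hr (j := i) hi (by omega) (by omega)
  have t3 := tI (p := p) hr (j := p ^ r - l + (p ^ r - i)) (by omega) (by omega) (by omega)
  have hB := bin2U (p := p) hr (k := l + i - 1) (by omega)
  have g1 : (l : ℚ) ≠ 0 := by positivity
  have g2 : (i : ℚ) ≠ 0 := by positivity
  have g3 : ((p ^ r - l + (p ^ r - i) : ℕ) : ℚ) ≠ 0 := by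
    have : 0 < p ^ r - l + (p ^ r - i) := by omega
    positivity
  have K : I p 2 (((p ^ r : ℕ) : ℚ) ^ 2 * ((l : ℚ) - i) / ((l : ℚ) * i * ((p ^ r - l + (p ^ r - i) : ℕ) : ℚ))) := by
    rcases Zp_or (p := p) ((l : ℚ) / i) with h | h
    · exact icg ((t1.mul t3).mulR (sub_mem h (one_mem _))) (by field_simp)
    · rw [inv_div] at h
      exact icg ((t2.mul t3).mulR (sub_mem (one_mem _) h)) (by field_simp)
  have K2 : ((p ^ r : ℕ) : ℚ) / i + ((p ^ r : ℕ) : ℚ) / l - 2 ∈ Zp p := sub_mem (add_mem t2.mem t1.mem) (nm 2)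
  refine N2 (y := (((p ^ r : ℕ) : ℚ) ^ 2 * ((l : ℚ) - i) / ((l : ℚ) * i * ((p ^ r - l + (p ^ r - i) : ℕ) : ℚ))) *
    ((((p ^ r : ℕ) : ℚ) / i + ((p ^ r : ℕ) : ℚ) / l - 2) * (om (p ^ r) l * om (p ^ r) i *
      ((p ^ r - 1).choose (l - 1) : ℚ) * ((p ^ r - 1).choose (i - 1) : ℚ) * ((2 * p ^ r - 1).choose (p ^ r) : ℚ) *
      ((2 * p ^ r - 1).choose (l + i - 1) : ℚ)⁻¹))) ?_ ?_
  · exact K.mulR (mul_mem K2 (mul_mem (mul_mem (mul_mem (mul_mem (mul_mem m1 m2) (nat_mem _)) (nat_mem _)) (nat_mem _)) hB.2.2))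
  · have hB0 := hB.1
    rw [om, om]
    generalize (((2 * p ^ r - 1).choose (l + i - 1) : ℕ) : ℚ) = B at hB0 ⊢
    generalize (((2 * p ^ r - 1).choose (p ^ r) : ℕ) : ℚ) = D
    generalize (((p ^ r - 1).choose (l - 1) : ℕ) : ℚ) = c1
    generalize (((p ^ r - 1).choose (i - 1) : ℕ) : ℚ) = c2
    have g4 : ((p ^ r : ℕ) : ℚ) ≠ 0 := by exact_mod_cast (pow_ne_zero r hp.out.ne_zero)
    generalize ((p ^ r - l + (p ^ r - i) : ℕ) : ℚ) = M at g3 ⊢
    generalize ((p ^ r : ℕ) : ℚ) = N at g4 ⊢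
    field_simp
    ring

/-- on the antidiagonal -/
theorem antiC {l : ℕ} (hl : 0 < l) (hlN : l < p ^ r) :
    I p (2 * r + 2) (((l : ℚ) ^ 2 * (((p ^ r : ℕ) : ℚ) - (p ^ r - l : ℕ)) ^ 2 - ((p ^ r - l : ℕ) : ℚ) ^ 2 * (((p ^ r : ℕ) : ℚ) - l) ^ 2) *
      (h l (p ^ r - l) * h (p ^ r - l) (p ^ r - (p ^ r - l))) - ((p ^ r : ℕ) : ℚ) ^ 2 * (((p ^ r : ℕ) : ℚ) / l)) := by
  have ex := h_anti (l := l) (j := p ^ r - l) hl (by omega)
  rw [show l + (p ^ r - l) = p ^ r by omega] at ex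
  rw [show p ^ r - (p ^ r - l) = l by omega, h_sym (p ^ r - l) l, ex, Nat.cast_sub hlN.le]
  have hom := omI h2 hr hO hl hlN
  have homm := om_mem h2 hr hO hl hlN
  have hb := bin1 (p := p) hr (k := l - 1) (by omega)
  have t1 := tI (p := p) hr (j := l) hl (by omega) (by omega)
  have g1 : (l : ℚ) ≠ 0 := by positivity
  have g4 : ((p ^ r : ℕ) : ℚ) ≠ 0 := by exact_mod_cast (pow_ne_zero r hp.out.ne_zero)
  have hN : ((p ^ r : ℕ) : ℚ) = (((p ^ r : ℕ) : ℚ) / l) * l := by field_simp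
  have ho : (l : ℚ) * (w l * w (p ^ r - l)) / ((p ^ r : ℕ) : ℚ) = om (p ^ r) l := rfl
  rw [ho]
  set T := ((p ^ r : ℕ) : ℚ) / l with hT
  have hcm : (((p ^ r - 1).choose (l - 1) : ℕ) : ℚ) ∈ Zp p := nat_mem _
  set c := (((p ^ r - 1).choose (l - 1) : ℕ) : ℚ) with hc
  set o := om (p ^ r) l with ho'
  have he := ee_mem h2 (p ^ r) l
  refine N2 (y := T * ((2 - T) * (T ^ 2 - 2 * T + 2) * o ^ 2 * c ^ 2 - 1)) ?_ ?_
  · refine I.mul (k := 1) (l := 1) t1 ?_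
    have hc2 : I p 1 (c ^ 2 - 1) := by
      have : ((-1 : ℚ) ^ (l - 1)) ^ 2 = 1 := by rw [← pow_mul, mul_comm, pow_mul]; norm_num
      have hmm : c + (-1) ^ (l - 1) ∈ Zp p := add_mem hcm (pow_mem (neg_mem (one_mem _)) _)
      refine icg (hb.mulR hmm) ?_
      linear_combination (-1 : ℚ) * this
    have ho2 : I p 1 (o ^ 2 - 1 / 4) := by
      have := ee_sq (p ^ r) l
      refine icg (hom.mulR (add_mem homm he)) ?_
      linear_combination (-1 : ℚ) * this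
    have hTm := t1.mem
    have a1 : I p 1 ((2 - T) * (T ^ 2 - 2 * T + 2) - 4) :=
      icg (t1.mulR (sub_mem (sub_mem (mul_mem (nm 4) hTm) (pow_mem hTm 2)) (nm 6))) (by ring)
    have hom2 : o ^ 2 * c ^ 2 ∈ Zp p := mul_mem (pow_mem homm 2) (pow_mem hcm 2)
    have a2 := a1.mulR hom2
    have a3 := ho2.mulR (mul_mem (nm 4) (pow_mem hcm 2))
    refine icg ((a2.add a3).add hc2) (by ring)
  · have e1 : ((p ^ r : ℕ) : ℚ) - (((p ^ r : ℕ) : ℚ) - l) = l := by ring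
    rw [e1]
    generalize ((p ^ r : ℕ) : ℚ) = N at g4 hN hT ⊢
    rw [hT]
    field_simp
    ring

end

end Pool.Agent.H547.CV
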