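import Pool.Agent.H547.CV.P

set_option autoImplicit false
set_option linter.unusedSectionVars false

namespace Pool.Agent.H547.CV

open Finset Pool.Agent.R439.PL Pool.Agent.H547
open scoped Nat

theorem w_zero : w 0 = 1 := by simp [w]

theorem h_pos {l i : ℕ} (hl : 0 < l) : h l i = w l * w i * ((l + i - 1)! : ℚ) / ((l ! : ℚ) * (i ! : ℚ)) := by
  rw [h, if_neg (by omega)]

theorem h_sym (l i : ℕ) : h l i = h i l := by
  unfold h
  by_cases hc : l = 0 ∧ i = 0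
  · rw [if_pos hc, if_pos ⟨hc.2, hc.1⟩]
  · rw [if_neg hc, if_neg (fun h => hc ⟨h.2, h.1⟩), add_comm i l]; ring

theorem h_zero {l : ℕ} (hl : 0 < l) : h l 0 = w l / l := by
  rw [h_pos hl, w_zero]
  obtain ⟨m, rfl⟩ : ∃ m, l = m + 1 := ⟨l - 1, by omega⟩
  have h1 : ((m ! : ℕ) : ℚ) ≠ 0 := by positivity
  have h2 : ((m : ℚ) + 1) ≠ 0 := by positivity
  rw [show m + 1 + 0 - 1 = m by omega, Nat.factorial_succ]
  push_cast
  rw [Nat.factorial_zero]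
  push_cast
  field_simp

/-- the edge terms -/
theorem al0 {l j : ℕ} (hl : 0 < l) (hj : 0 < j) : (l : ℚ) ^ 2 * ((l + j : ℕ) : ℚ) ^ 2 * h l 0 * h j (l + j) =
    ((l + j : ℕ) : ℚ) ^ 2 * (((l : ℚ) * (w l * w j) / ((l + j : ℕ) : ℚ)) * w (l + j) * ((l + j + j).choose (l + j) : ℚ) *
      (((l + j : ℕ) : ℚ) / ((l + j + j : ℕ) : ℚ))) := by
  rw [h_zero hl, h_pos hj, Nat.cast_choose ℚ (by omega : l + j ≤ l + j + j)]
  obtain ⟨m, rfl⟩ : ∃ m, j = m + 1 := ⟨j - 1, by omega⟩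
  have e1 : l + (m + 1) + (m + 1) - (l + (m + 1)) = m + 1 := by omega
  have e2 : m + 1 + (l + (m + 1)) - 1 = l + m + 1 + m := by omega
  have e3 : l + (m + 1) + (m + 1) = l + m + 1 + m + 1 := by omega
  rw [e1, e2, e3, Nat.factorial_succ (l + m + 1 + m)]
  have h1 : (((l + m + 1 + m)! : ℕ) : ℚ) ≠ 0 := by positivity
  have h2 : (((m + 1)! : ℕ) : ℚ) ≠ 0 := by positivity
  have h3 : (((l + (m + 1))! : ℕ) : ℚ) ≠ 0 := by positivity
  have h4 : (l : ℚ) ≠ 0 := by positivity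
  push_cast
  have h5 : (l : ℚ) + (m + 1) ≠ 0 := by positivity
  have h6 : (l : ℚ) + m + 1 + m + 1 ≠ 0 := by positivity
  field_simp

/-- the diagonal terms -/
theorem h_diag {l : ℕ} (hl : 0 < l) : h l l = w l ^ 3 * 4 ^ l / (2 * l) := by
  rw [h_pos hl]
  have h1 : (l ! : ℚ) ≠ 0 := by positivity
  have hc : ((2 * l)! : ℚ) = (Nat.centralBinom l : ℚ) * (l ! : ℚ) * (l ! : ℚ) := by
    have := Nat.choose_mul_factorial_mul_factorial (show l ≤ 2 * l by omega)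
    rw [show 2 * l - l = l by omega] at this
    rw [Nat.centralBinom]
    exact_mod_cast this.symm
  have hd : ((2 * l)! : ℚ) = 2 * l * ((l + l - 1)! : ℚ) := by
    have := Nat.mul_factorial_pred (show 2 * l ≠ 0 by omega)
    rw [show l + l - 1 = 2 * l - 1 by omega]
    rw [← this]; push_cast; ring
  have h2 : ((l + l - 1)! : ℚ) = (Nat.centralBinom l : ℚ) * (l ! : ℚ) * (l ! : ℚ) / (2 * l) := by
    have : (2 * l : ℚ) ≠ 0 := by positivity
    rw [eq_div_iff this, ← hc, hd]; ring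
  have h3 : (Nat.centralBinom l : ℚ) = w l * 4 ^ l := by
    rw [w, div_mul_cancel₀]; positivity
  rw [h2, h3]
  field_simp

theorem ga {l j : ℕ} (hl : 0 < l) (hj : 0 < j) : (l : ℚ) ^ 2 * (j : ℚ) ^ 2 * h l l * h j j =
    ((l + j : ℕ) : ℚ) ^ 2 * (4 ^ (l + j - 1) * (((l + j : ℕ) : ℚ) / l) * (((l + j : ℕ) : ℚ) / l - 1) *
      ((l : ℚ) * (w l * w j) / ((l + j : ℕ) : ℚ)) ^ 3) := by
  rw [h_diag hl, h_diag hj]
  have h4 : (l : ℚ) ≠ 0 := by positivity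
  have h5 : (j : ℚ) ≠ 0 := by positivity
  have h6 : ((l + j : ℕ) : ℚ) ≠ 0 := by positivity
  have e1 : (4 : ℚ) ^ l * 4 ^ j = 4 * 4 ^ (l + j - 1) := by
    rw [← pow_add, ← pow_succ']; congr 1; omega
  have e2 : (l : ℚ) ^ 2 * (j : ℚ) ^ 2 * (w l ^ 3 * 4 ^ l / (2 * l)) * (w j ^ 3 * 4 ^ j / (2 * j)) =
      (4 ^ l * 4 ^ j) * (l * j * w l ^ 3 * w j ^ 3) / 4 := by
    field_simp; ring
  rw [e2, e1]
  have e3 : ((l + j : ℕ) : ℚ) / l - 1 = j / l := by push_cast; field_simp; ring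
  rw [e3]
  field_simp

/-- the inner terms -/
theorem hh {l i l' i' N : ℕ} (hl : 0 < l) (hi : 0 < i) (hl' : 0 < l') (hi' : 0 < i') (h1 : l + l' = N) (h2 : i + i' = N) :
    h l i * h l' i' = (N : ℚ) ^ 3 * ((l : ℚ) * (w l * w l') / N) * ((i : ℚ) * (w i * w i') / N) *
      ((N - 1).choose (l - 1) : ℚ) * ((N - 1).choose (i - 1) : ℚ) * ((2 * N - 1).choose N : ℚ) /
      ((l : ℚ) ^ 2 * (i : ℚ) ^ 2 * ((2 * N - 1).choose (l + i - 1) : ℚ) * ((l' + i' : ℕ) : ℚ)) := by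
  rw [h_pos hl, h_pos hl', Nat.cast_choose ℚ (by omega : l - 1 ≤ N - 1), Nat.cast_choose ℚ (by omega : i - 1 ≤ N - 1),
    Nat.cast_choose ℚ (by omega : N ≤ 2 * N - 1), Nat.cast_choose ℚ (by omega : l + i - 1 ≤ 2 * N - 1)]
  have e1 : N - 1 - (l - 1) = l' := by omega
  have e2 : N - 1 - (i - 1) = i' := by omega
  have e3 : 2 * N - 1 - N = N - 1 := by omega
  have e4 : 2 * N - 1 - (l + i - 1) = l' + i' := by omega
  rw [e1, e2, e3, e4]
  have f1 : (l ! : ℚ) = l * ((l - 1)! : ℚ) := by rw [← Nat.mul_factorial_pred hl.ne']; push_cast; ring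
  have f2 : (i ! : ℚ) = i * ((i - 1)! : ℚ) := by rw [← Nat.mul_factorial_pred hi.ne']; push_cast; ring
  have f3 : ((N)! : ℚ) = N * ((N - 1)! : ℚ) := by rw [← Nat.mul_factorial_pred (by omega : N ≠ 0)]; push_cast; ring
  have f4 : ((l' + i')! : ℚ) = ((l' + i' : ℕ) : ℚ) * ((l' + i' - 1)! : ℚ) := by
    rw [← Nat.mul_factorial_pred (by omega : l' + i' ≠ 0)]; push_cast; ring
  rw [f1, f2, f3, f4]
  have g1 : ((l - 1)! : ℚ) ≠ 0 := by positivity
  have g2 : ((i - 1)! : ℚ) ≠ 0 := by positivity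
  have g3 : ((N - 1)! : ℚ) ≠ 0 := by positivity
  have g4 : ((l' + i' - 1)! : ℚ) ≠ 0 := by positivity
  have g5 : (l : ℚ) ≠ 0 := by positivity
  have g6 : (i : ℚ) ≠ 0 := by positivity
  have g7 : (N : ℚ) ≠ 0 := by
    have : 0 < N := by omega
    positivity
  have g8 : ((l' + i' : ℕ) : ℚ) ≠ 0 := by positivity
  have g9 : ((2 * N - 1)! : ℚ) ≠ 0 := by positivity
  have g10 : (l' ! : ℚ) ≠ 0 := by positivity
  have g11 : (i' ! : ℚ) ≠ 0 := by positivity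
  have g12 : ((l + i - 1)! : ℚ) ≠ 0 := by positivity
  field_simp

/-- the antidiagonal terms -/
theorem h_anti {l j : ℕ} (hl : 0 < l) (hj : 0 < j) : h l j =
    ((l : ℚ) * (w l * w j) / ((l + j : ℕ) : ℚ)) * ((l + j - 1).choose (l - 1) : ℚ) * (((l + j : ℕ) : ℚ) / (l : ℚ) ^ 2) := by
  rw [h_pos hl, Nat.cast_choose ℚ (by omega : l - 1 ≤ l + j - 1)]
  have e1 : l + j - 1 - (l - 1) = j := by omega
  rw [e1]
  have f1 : (l ! : ℚ) = l * ((l - 1)! : ℚ) := by rw [← Nat.mul_factorial_pred hl.ne']; push_cast; ring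
  rw [f1]
  have g1 : ((l - 1)! : ℚ) ≠ 0 := by positivity
  have g10 : (j ! : ℚ) ≠ 0 := by positivity
  have g5 : (l : ℚ) ≠ 0 := by positivity
  have g7 : ((l + j : ℕ) : ℚ) ≠ 0 := by positivity
  field_simp

end Pool.Agent.H547.CV
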