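import Pool.Agent.H547.CV.D

set_option autoImplicit false
set_option linter.unusedSectionVars false

namespace Pool.Agent.H547.CV

open Finset Pool.Agent.R439.PL Pool.Agent.H547
open scoped Nat

variable {p : ℕ} [hp : Fact p.Prime]

def al (N l i : ℕ) : ℚ := (l : ℚ) ^ 2 * ((N : ℚ) - i) ^ 2 * h l i * h (N - l) (N - i)
def gm (N l i : ℕ) : ℚ := (i : ℚ) ^ 2 * ((N : ℚ) - l) ^ 2 * h l i * h (N - l) (N - i)

/-- rearrangement of the exact identity -/
theorem rearr (hB : S_B) (M : ℕ) : SS 16 (M + 1) / 4 = al (M + 1) (M + 1) 0 + ∑ l ∈ range M, (al (M + 1) (M + 1) (l + 1) +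
    al (M + 1) (l + 1) 0 - gm (M + 1) (l + 1) (l + 1) +
    ∑ i ∈ range l, (al (M + 1) (l + 1) (i + 1) - gm (M + 1) (l + 1) (i + 1))) := by
  have h1 := hB (M + 1)
  have e1 : ∑ l ∈ range (M + 1), ∑ i ∈ range l, ((i : ℚ) + 1) ^ 2 * (((M + 1 : ℕ) : ℚ) - l) ^ 2 * h l (i + 1) * h (M + 1 - l) (M + 1 - (i + 1)) =
      ∑ l ∈ range (M + 1), ∑ i ∈ range l, gm (M + 1) l (i + 1) := by
    refine sum_congr rfl fun l _ => sum_congr rfl fun i _ => ?_
    unfold gm; push_cast; ring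
  rw [e1] at h1
  rw [h1]
  change ∑ l ∈ range (M + 1 + 1), ∑ i ∈ range l, al (M + 1) l i - _ = _
  rw [sum_range_succ, sum_range_succ' (fun l => ∑ i ∈ range l, al (M + 1) l i), sum_range_succ' (fun i => al (M + 1) (M + 1) i),
    sum_range_succ' (fun l => ∑ i ∈ range l, gm (M + 1) l (i + 1))]
  have e2 : ∀ l, ∑ i ∈ range (l + 1), al (M + 1) (l + 1) i = ∑ i ∈ range l, al (M + 1) (l + 1) (i + 1) + al (M + 1) (l + 1) 0 :=
    fun l => sum_range_succ' _ _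
  have e3 : ∀ l, ∑ i ∈ range (l + 1), gm (M + 1) (l + 1) (i + 1) = ∑ i ∈ range l, gm (M + 1) (l + 1) (i + 1) + gm (M + 1) (l + 1) (l + 1) :=
    fun l => sum_range_succ _ _
  simp only [e2, e3, sum_add_distrib, sum_sub_distrib, range_zero, sum_empty]
  ring

/-- reflection of the edges -/
theorem al_refl {M l : ℕ} (hl : l < M) : al (M + 1) (M + 1) (l + 1) = al (M + 1) (M - 1 - l + 1) 0 := by
  have e1 : M - 1 - l + 1 = M + 1 - (l + 1) := by omega
  rw [e1]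
  unfold al
  have h0 : 0 < M + 1 - (l + 1) := by omega
  rw [show M + 1 - (M + 1) = 0 by omega, show M + 1 - 0 = M + 1 by omega, h_sym 0 (M + 1 - (l + 1)),
    show M + 1 - (M + 1 - (l + 1)) = l + 1 by omega, h_sym (l + 1) (M + 1), Nat.cast_sub (by omega)]
  push_cast
  ring

theorem sum_edge (M : ℕ) : ∑ l ∈ range M, al (M + 1) (M + 1) (l + 1) = ∑ l ∈ range M, al (M + 1) (l + 1) 0 := by
  rw [← sum_range_reflect (fun l => al (M + 1) (l + 1) 0)]
  exact sum_congr rfl fun l hl => al_refl (mem_range.1 hl)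

theorem al_top (M : ℕ) : al (M + 1) (M + 1) 0 = ((M + 1 : ℕ) : ℚ) ^ 2 * w (M + 1) ^ 2 := by
  unfold al
  rw [show M + 1 - (M + 1) = 0 by omega, show M + 1 - 0 = M + 1 by omega, h_sym 0 (M + 1), h_zero (by omega)]
  have : ((M + 1 : ℕ) : ℚ) ≠ 0 := by positivity
  push_cast at this ⊢
  field_simp
  ring

theorem D (hB : S_B) (hO : S_O) (hW : S_W) : S_D := by
  intro p _ r h2 hr
  have hpos : 0 < p ^ r := pow_pos (Fact.out (p := p.Prime)).pos r
  have hodd : p ^ r % 2 = 1 := by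
    have : p % 2 = 1 := (Nat.Prime.eq_two_or_odd (Fact.out (p := p.Prime))).resolve_left h2
    simp [Nat.pow_mod, this]
  obtain ⟨M, hM⟩ : ∃ M, p ^ r = M + 1 := ⟨p ^ r - 1, by omega⟩
  set n := p ^ r / 2 with hn
  have hMn : M = n + n := by omega
  have key : ∀ l, l < M → I p (2 * r + 2) (2 * al (M + 1) (l + 1) 0 - gm (M + 1) (l + 1) (l + 1) +
      ∑ i ∈ range l, (al (M + 1) (l + 1) (i + 1) - gm (M + 1) (l + 1) (i + 1)) -
      ((p ^ r : ℕ) : ℚ) ^ 2 * (((p ^ r : ℕ) : ℚ) / ((l : ℚ) + 1) * (if l < n then 3 / 8 else 5 / 8))) := by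
    intro l hl
    have a1 := al0C h2 hr hW hO (l := l + 1) (by omega) (by omega)
    have a2 := gaC h2 hr hW hO (l := l + 1) (by omega) (by omega)
    have a1' : I p (2 * r + 2) (al (M + 1) (l + 1) 0 -
        ((p ^ r : ℕ) : ℚ) ^ 2 * (((p ^ r : ℕ) : ℚ) / ((l : ℚ) + 1) * (-1 / 2 * ee (p ^ r) (l + 1)))) := by
      refine icg a1 ?_
      unfold al
      rw [hM]; push_cast; simp
    have a2' : I p (2 * r + 2) (gm (M + 1) (l + 1) (l + 1) -
        ((p ^ r : ℕ) : ℚ) ^ 2 * (((p ^ r : ℕ) : ℚ) / ((l : ℚ) + 1) * (-1 / 4 * ee (p ^ r) (l + 1)))) := by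
      refine icg a2 ?_
      unfold gm
      rw [hM]; push_cast; ring
    have a3 : I p (2 * r + 2) (∑ i ∈ range l, (al (M + 1) (l + 1) (i + 1) - gm (M + 1) (l + 1) (i + 1)) -
        ((p ^ r : ℕ) : ℚ) ^ 2 * (((p ^ r : ℕ) : ℚ) / ((l : ℚ) + 1) * (if l < n then 0 else 1))) := by
      have o1 : ∀ i ∈ range l, i + 1 + (l + 1) ≠ p ^ r → I p (2 * r + 2) (al (M + 1) (l + 1) (i + 1) - gm (M + 1) (l + 1) (i + 1)) := by
        intro i hi hne
        have hi' := mem_range.1 hi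
        have := offC h2 hr hW hO (l := l + 1) (i := i + 1) (by omega) (by omega) (by omega) (by omega)
        refine icg this ?_
        unfold al gm
        rw [hM]; push_cast; ring
      by_cases hln : l < n
      · rw [if_pos hln, mul_zero, mul_zero, sub_zero]
        exact I.sum fun i hi => o1 i hi (by have := mem_range.1 hi; omega)
      · rw [if_neg hln, mul_one]
        have hmem : M - 1 - l ∈ range l := mem_range.2 (by omega)
        rw [← add_sum_erase _ _ hmem]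
        have b1 : I p (2 * r + 2) (∑ i ∈ (range l).erase (M - 1 - l), (al (M + 1) (l + 1) (i + 1) - gm (M + 1) (l + 1) (i + 1))) := by
          apply I.sum
          intro i hi
          rw [mem_erase] at hi
          exact o1 i hi.2 (by have := mem_range.1 hi.2; have := hi.1; omega)
        have b2 := antiC h2 hr hW hO (l := l + 1) (by omega) (by omega)
        refine icg (b2.add b1) ?_
        have e1 : M - 1 - l + 1 = p ^ r - (l + 1) := by omega
        rw [e1]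
        unfold al gm
        rw [hM]; push_cast; ring
    have ex : 2 * al (M + 1) (l + 1) 0 - gm (M + 1) (l + 1) (l + 1) +
        ∑ i ∈ range l, (al (M + 1) (l + 1) (i + 1) - gm (M + 1) (l + 1) (i + 1)) -
        ((p ^ r : ℕ) : ℚ) ^ 2 * (((p ^ r : ℕ) : ℚ) / ((l : ℚ) + 1) * (if l < n then 3 / 8 else 5 / 8)) =
        2 * (al (M + 1) (l + 1) 0 - ((p ^ r : ℕ) : ℚ) ^ 2 * (((p ^ r : ℕ) : ℚ) / ((l : ℚ) + 1) * (-1 / 2 * ee (p ^ r) (l + 1)))) -
        (gm (M + 1) (l + 1) (l + 1) - ((p ^ r : ℕ) : ℚ) ^ 2 * (((p ^ r : ℕ) : ℚ) / ((l : ℚ) + 1) * (-1 / 4 * ee (p ^ r) (l + 1)))) +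
        (∑ i ∈ range l, (al (M + 1) (l + 1) (i + 1) - gm (M + 1) (l + 1) (i + 1)) -
          ((p ^ r : ℕ) : ℚ) ^ 2 * (((p ^ r : ℕ) : ℚ) / ((l : ℚ) + 1) * (if l < n then 0 else 1))) := by
      unfold ee
      by_cases hln : l < n
      · rw [if_pos hln, if_pos hln, if_pos (by omega : 2 * (l + 1) < p ^ r)]; ring
      · rw [if_neg hln, if_neg hln, if_neg (by omega : ¬ 2 * (l + 1) < p ^ r)]; ring
    rw [ex]
    exact ((a1'.mulL (nm 2)).sub a2').add a3
  have hsum := I.sum (s := range M) (fun l hl => key l (mem_range.1 hl))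
  rw [sum_sub_distrib] at hsum
  have e1 := rearr hB M
  rw [al_top] at e1
  have e2 : ∑ l ∈ range M, (al (M + 1) (M + 1) (l + 1) + al (M + 1) (l + 1) 0 - gm (M + 1) (l + 1) (l + 1) +
      ∑ i ∈ range l, (al (M + 1) (l + 1) (i + 1) - gm (M + 1) (l + 1) (i + 1))) =
      ∑ l ∈ range M, (2 * al (M + 1) (l + 1) 0 - gm (M + 1) (l + 1) (l + 1) +
      ∑ i ∈ range l, (al (M + 1) (l + 1) (i + 1) - gm (M + 1) (l + 1) (i + 1))) := by
    have := sum_edge M
    simp only [sum_add_distrib, sum_sub_distrib, ← mul_sum]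
    rw [this]; ring
  rw [e2] at e1
  -- the harmonic part
  have e3 : ∑ l ∈ range M, ((p ^ r : ℕ) : ℚ) ^ 2 * (((p ^ r : ℕ) : ℚ) / ((l : ℚ) + 1) * (if l < n then 3 / 8 else 5 / 8)) =
      ((p ^ r : ℕ) : ℚ) ^ 2 * (5 / 8 * ∑ l ∈ range M, ((p ^ r : ℕ) : ℚ) / ((l : ℚ) + 1) -
        1 / 4 * ∑ l ∈ range n, ((p ^ r : ℕ) : ℚ) / ((l : ℚ) + 1)) := by
    rw [← mul_sum]
    congr 1
    rw [hMn, sum_range_add, sum_range_add (fun l => ((p ^ r : ℕ) : ℚ) / ((l : ℚ) + 1))]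
    have q1 : ∑ x ∈ range n, ((p ^ r : ℕ) : ℚ) / ((x : ℚ) + 1) * (if x < n then (3 / 8 : ℚ) else 5 / 8) =
        3 / 8 * ∑ x ∈ range n, ((p ^ r : ℕ) : ℚ) / ((x : ℚ) + 1) := by
      rw [mul_sum]; exact sum_congr rfl fun x hx => by rw [if_pos (mem_range.1 hx)]; ring
    have q2 : ∑ x ∈ range n, ((p ^ r : ℕ) : ℚ) / (((n + x : ℕ) : ℚ) + 1) * (if n + x < n then (3 / 8 : ℚ) else 5 / 8) =
        5 / 8 * ∑ x ∈ range n, ((p ^ r : ℕ) : ℚ) / (((n + x : ℕ) : ℚ) + 1) := by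
      rw [mul_sum]; exact sum_congr rfl fun x hx => by rw [if_neg (by omega)]; ring
    rw [q1, q2]
    ring
  have hs := sum_t (p := p) hr h2
  rw [show p ^ r - 1 = M by omega] at hs
  have hs2 : I p (2 * r + 2) (((p ^ r : ℕ) : ℚ) ^ 2 * ((1 / 2 * (1 / 4) * 5) * ∑ l ∈ range M, ((p ^ r : ℕ) : ℚ) / ((l : ℚ) + 1))) :=
    N2 (hs.mulL (mul_mem (mul_mem (half_mem h2) (quarter_mem h2)) (nm 5))) rfl
  rw [e3] at hsum
  have fin := (hsum.add hs2).mulL (nm 4)
  refine icg fin ?_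
  have e4 : SS 16 (p ^ r) = 4 * (SS 16 (M + 1) / 4) := by rw [hM]; ring
  rw [e4, e1, ← hM]
  ring

end Pool.Agent.H547.CV
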