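import Pool.Agent.H547.CV.D
import Pool.Agent.H547.Harm

set_option autoImplicit false
set_option linter.unusedSectionVars false

namespace Pool.Agent.H547.CV

open Finset Pool.Agent.R439.PL Pool.Agent.H547
open scoped Nat

variable {p : ℕ} [hp : Fact p.Prime]

/-- the summand of the exact formula for `x = -8`, `j = i + 1`, `L = 2l+1` -/
def te (N l j : ℕ) : ℚ := rho N l * cc N j * (N.choose (2 * l + 1 - j) : ℚ) *
      ((N : ℚ) * (2 * (j : ℚ) - (2 * l + 1)) * (2 * N * (j : ℚ) + N * (2 * l + 1) - 2 * (j : ℚ) * (2 * l + 1)) /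
        (2 * (N : ℚ) - (2 * l + 1)) ^ 2)

theorem choose_pred {N j : ℕ} (hj : 0 < j) (hjN : j ≤ N) : (N.choose j : ℚ) = (N : ℚ) / j * ((N - 1).choose (j - 1) : ℚ) := by
  have h1 := Nat.add_one_mul_choose_eq (N - 1) (j - 1)
  rw [show N - 1 + 1 = N by omega, show j - 1 + 1 = j by omega] at h1
  have h2 : (j : ℚ) ≠ 0 := by positivity
  rw [div_mul_eq_mul_div, eq_div_iff h2]
  exact_mod_cast h1.symm

theorem cc_eq {N j : ℕ} (hj : 0 < j) (hjN : j < N) : cc N j = (N : ℚ) ^ 2 / (j : ℚ) ^ 2 * om N j * ((N - 1).choose (j - 1) : ℚ) := by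
  have h2 : (j : ℚ) ≠ 0 := by positivity
  have h3 : (N : ℚ) ≠ 0 := by
    have : 0 < N := by omega
    positivity
  rw [cc, choose_pred hj hjN.le, om]
  field_simp

theorem sumphi (g : ℕ → ℚ) (n : ℕ) :
    ∑ m ∈ range n, g (if 4 * (m + 1) < 2 * n + 1 then 2 * (m + 1) else 2 * n + 1 - 2 * (m + 1)) = ∑ j ∈ range n, g (j + 1) := by
  refine sum_nbij' (fun m => (if 4 * (m + 1) < 2 * n + 1 then 2 * (m + 1) else 2 * n + 1 - 2 * (m + 1)) - 1)
    (fun j => if (j + 1) % 2 = 0 then (j + 1) / 2 - 1 else (2 * n + 1 - (j + 1)) / 2 - 1) ?_ ?_ ?_ ?_ ?_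
  · intro m hm
    rw [mem_range] at hm ⊢
    split_ifs <;> omega
  · intro j hj
    rw [mem_range] at hj ⊢
    split_ifs <;> omega
  · intro m hm
    rw [mem_range] at hm
    by_cases h : 4 * (m + 1) < 2 * n + 1
    · simp only [if_pos h]
      rw [if_pos (by omega)]; omega
    · simp only [if_neg h]
      rw [if_neg (by omega)]; omega
  · intro j hj
    rw [mem_range] at hj
    by_cases h : (j + 1) % 2 = 0
    · simp only [if_pos h]
      rw [if_pos (by omega)]; omega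
    · simp only [if_neg h]
      rw [if_neg (by omega)]; omega
  · intro m hm
    rw [mem_range] at hm
    congr 1
    split_ifs <;> omega

section
variable {r : ℕ} (h2 : p ≠ 2) (hr : 1 ≤ r)
include h2 hr

/-- `K ≡ -H/2 (mod p²)` -/
theorem Kval {n : ℕ} (hn : p ^ r = 2 * n + 1) :
    I p 2 (∑ m ∈ range n, ((p ^ r : ℕ) : ℚ) / (2 * (m + 1 : ℕ) : ℕ) * ee (p ^ r) (2 * (m + 1)) +
      1 / 2 * ∑ j ∈ range n, ((p ^ r : ℕ) : ℚ) / ((j : ℚ) + 1)) := by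
  have e1 := sumphi (fun j => ((p ^ r : ℕ) : ℚ) / (j : ℚ)) n
  have e2 : ∑ j ∈ range n, ((p ^ r : ℕ) : ℚ) / ((j : ℚ) + 1) = ∑ j ∈ range n, ((p ^ r : ℕ) : ℚ) / ((j + 1 : ℕ) : ℚ) :=
    sum_congr rfl fun j _ => by push_cast; rfl
  rw [e2, ← e1, mul_sum, ← sum_add_distrib]
  apply I.sum
  intro m hm
  have hm' := mem_range.1 hm
  by_cases h : 4 * (m + 1) < 2 * n + 1
  · simp only [if_pos h]
    rw [ee, if_pos (by omega)]
    exact icg I.zero (by ring)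
  · simp only [if_neg h]
    rw [ee, if_neg (by omega)]
    have t1 := tI (p := p) hr (j := 2 * (m + 1)) (by omega) (by omega) (by omega)
    have t2 := tI (p := p) hr (j := 2 * n + 1 - 2 * (m + 1)) (by omega) (by omega) (by omega)
    refine icg ((t1.mul t2).mulL (half_mem h2)) ?_
    have c1 : ((2 * n + 1 - 2 * (m + 1) : ℕ) : ℚ) = ((p ^ r : ℕ) : ℚ) - (2 * (m + 1) : ℕ) := by
      rw [Nat.cast_sub (by omega), hn]
    have c2 : (((2 * (m + 1) : ℕ) : ℚ)) ≠ 0 := by positivity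
    have c3 : ((p ^ r : ℕ) : ℚ) - (2 * (m + 1) : ℕ) ≠ 0 := by
      rw [← c1]
      have : 0 < 2 * n + 1 - 2 * (m + 1) := by omega
      positivity
    rw [c1]
    generalize ((p ^ r : ℕ) : ℚ) = N at c3 ⊢
    generalize ((2 * (m + 1) : ℕ) : ℚ) = x at c2 c3 ⊢
    field_simp
    ring

theorem Oval {n : ℕ} (hn : p ^ r = 2 * n + 1) :
    I p 2 (∑ j ∈ range n, ((p ^ r : ℕ) : ℚ) / (2 * (j : ℚ) + 1) +
      1 / 2 * ∑ j ∈ range n, ((p ^ r : ℕ) : ℚ) / ((j : ℚ) + 1)) := by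
  have hs := sum_t (p := p) hr h2
  rw [show p ^ r - 1 = 2 * n by omega, evenodd (fun l => ((p ^ r : ℕ) : ℚ) / ((l : ℚ) + 1)) n] at hs
  refine icg hs ?_
  rw [add_comm, mul_sum]
  congr 1
  · exact sum_congr rfl fun j _ => by push_cast; rfl
  · refine sum_congr rfl fun j _ => ?_
    have : (j : ℚ) + 1 ≠ 0 := by positivity
    push_cast
    rw [show (2 * (j : ℚ) + 1 + 1) = 2 * (j + 1) by ring]
    field_simp

variable (hR : S_R) (hO : S_O) (hW : S_W)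
include hR hO hW

theorem rhoI {l : ℕ} (hl : l ≤ p ^ r) : I p 1 (rho (p ^ r) l - 1 / 2) :=
  icg (((hR p r h2 hr).1 l hl).add (wN h2 hr hW)) (by ring)

theorem rho_mem {l : ℕ} (hl : l ≤ p ^ r) : rho (p ^ r) l ∈ Zp p := by
  have := add_mem (rhoI h2 hr hR hO hW hl).mem (half_mem h2)
  rwa [sub_add_cancel] at this

/-- terms with `L - j = N` -/
theorem te_main {l n : ℕ} (hn : p ^ r = 2 * n + 1) (hnl : n < l) (hlN : l < p ^ r) :
    I p (2 * r + 2) (te (p ^ r) l (2 * (l - n)) - ((p ^ r : ℕ) : ℚ) ^ 2 * (((p ^ r : ℕ) : ℚ) / (2 * (l - n) : ℕ) * ee (p ^ r) (2 * (l - n)))) := by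
  have hj : 0 < 2 * (l - n) := by omega
  have hjN : 2 * (l - n) < p ^ r := by omega
  have hom := omI h2 hr hO hj hjN
  have homm := om_mem h2 hr hO hj hjN
  have hb := bin1 (p := p) hr (k := 2 * (l - n) - 1) (by omega)
  have t1 := tI (p := p) hr (j := 2 * (l - n)) hj (by omega) (by omega)
  have hrho := rhoI h2 hr hR hO hW hlN.le
  have hrm := rho_mem h2 hr hR hO hW hlN.le
  have hsg : (-1 : ℚ) ^ (2 * (l - n) - 1) = -1 := by
    rw [show 2 * (l - n) - 1 = 2 * (l - n - 1) + 1 by omega, pow_succ, pow_mul]; norm_num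
  rw [hsg] at hb
  rw [te, cc_eq hj hjN, show 2 * l + 1 - 2 * (l - n) = p ^ r by omega, Nat.choose_self]
  have hL : (2 * (l : ℚ) + 1) = ((p ^ r : ℕ) : ℚ) + ((2 * (l - n) : ℕ) : ℚ) := by
    have : 2 * l + 1 = p ^ r + 2 * (l - n) := by omega
    exact_mod_cast this
  rw [hL]
  have c2 : (((2 * (l - n) : ℕ) : ℚ)) ≠ 0 := by positivity
  have c3 : ((p ^ r : ℕ) : ℚ) - (2 * (l - n) : ℕ) ≠ 0 := by
    rw [← Nat.cast_sub hjN.le]
    have : 0 < p ^ r - 2 * (l - n) := by omega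
    positivity
  have hcm : (((p ^ r - 1).choose (2 * (l - n) - 1) : ℕ) : ℚ) ∈ Zp p := nat_mem _
  set c := (((p ^ r - 1).choose (2 * (l - n) - 1) : ℕ) : ℚ) with hc
  set o := om (p ^ r) (2 * (l - n)) with ho
  set ρ := rho (p ^ r) l with hρ
  set e := ee (p ^ r) (2 * (l - n)) with he
  have hem : e ∈ Zp p := ee_mem h2 _ _
  set T := ((p ^ r : ℕ) : ℚ) / ((2 * (l - n) : ℕ) : ℚ) with hT
  have hTm := t1.mem
  refine N2 (y := T * (-(T + 2) * o * c * ρ - e)) ?_ ?_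
  · refine I.mul (k := 1) (l := 1) t1 ?_
    have a1 := (t1.mulR (mul_mem (mul_mem homm hcm) hrm)).neg
    have a2 := (hom.mulR (mul_mem (mul_mem (nm 2) hcm) hrm)).neg
    have a3 := (hb.mulR (mul_mem (mul_mem (nm 2) hem) hrm)).neg
    have a4 := (hrho.mulR (mul_mem (nm 2) hem))
    refine icg (((a1.add a2).add a3).add a4) (by ring)
  · rw [hT]
    generalize ((p ^ r : ℕ) : ℚ) = N at c3 ⊢
    generalize ((2 * (l - n) : ℕ) : ℚ) = x at c2 c3 ⊢
    have c4 : 2 * N - (N + x) ≠ 0 := by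
      have : 2 * N - (N + x) = N - x := by ring
      rw [this]; exact c3
    rw [show 2 * N - (N + x) = N - x by ring]
    field_simp
    ring

/-- terms with `L - j < N` -/
theorem te_off {l j : ℕ} (hj : 0 < j) (hjl : j ≤ l) (hlN : l < p ^ r) (hlt : 2 * l + 1 - j < p ^ r) :
    I p (2 * r + 2) (te (p ^ r) l j) := by
  have hjN : j < p ^ r := by omega
  have hodd : p ^ r % 2 = 1 := by
    have : p % 2 = 1 := (Nat.Prime.eq_two_or_odd (Fact.out (p := p.Prime))).resolve_left h2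
    simp [Nat.pow_mod, this]
  have homm := om_mem h2 hr hO hj hjN
  have t1 := tI (p := p) hr (j := j) hj (by omega) (by omega)
  have t2 := tI (p := p) hr (j := 2 * l + 1 - j) (by omega) (by omega) (by omega)
  have hrm := rho_mem h2 hr hR hO hW hlN.le
  have hL : (2 * (l : ℚ) + 1) = ((2 * l + 1 : ℕ) : ℚ) := by push_cast; rfl
  have hM : ((2 * p ^ r - (2 * l + 1) : ℕ) : ℚ) = 2 * ((p ^ r : ℕ) : ℚ) - ((2 * l + 1 : ℕ) : ℚ) := by
    rw [Nat.cast_sub (by omega)]; push_cast; ring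
  have hK : ((2 * l + 1 - j : ℕ) : ℚ) = ((2 * l + 1 : ℕ) : ℚ) - j := Nat.cast_sub (by omega)
  have cj : (j : ℚ) ≠ 0 := by positivity
  have cL : ((2 * l + 1 : ℕ) : ℚ) ≠ 0 := by positivity
  have cM : 2 * ((p ^ r : ℕ) : ℚ) - ((2 * l + 1 : ℕ) : ℚ) ≠ 0 := by
    rw [← hM]
    have : 0 < 2 * p ^ r - (2 * l + 1) := by omega
    positivity
  have cK : ((2 * l + 1 : ℕ) : ℚ) - j ≠ 0 := by
    rw [← hK]
    have : 0 < 2 * l + 1 - j := by omega
    positivity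
  have cN : ((p ^ r : ℕ) : ℚ) ≠ 0 := by exact_mod_cast (pow_ne_zero r hp.out.ne_zero)
  rw [te, cc_eq hj hjN, choose_pred (by omega : 0 < 2 * l + 1 - j) hlt.le, hL, hK]
  rw [hK] at t2
  -- the integral factor
  have hQ : I p 2 (((p ^ r : ℕ) : ℚ) ^ 2 * (2 * (j : ℚ) - ((2 * l + 1 : ℕ) : ℚ)) *
      (2 * ((p ^ r : ℕ) : ℚ) * j + ((p ^ r : ℕ) : ℚ) * ((2 * l + 1 : ℕ) : ℚ) - 2 * j * ((2 * l + 1 : ℕ) : ℚ)) /
      ((j : ℚ) ^ 2 * (((2 * l + 1 : ℕ) : ℚ) - j) * (2 * ((p ^ r : ℕ) : ℚ) - ((2 * l + 1 : ℕ) : ℚ)) ^ 2)) := by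
    by_cases hc : 2 * l + 1 = p ^ r
    · rw [hc] at t2 cK cM ⊢
      have g1 := (t1.mul t1).mulR (sub_mem t2.mem t1.mem)
      have g2 := (t1.mul t2)
      have g3 := (t1.mul t1).neg
      refine icg (g2.add g3) ?_
      generalize ((p ^ r : ℕ) : ℚ) = N at cN cK cM ⊢
      rw [show 2 * N - N = N by ring]
      field_simp
      ring
    · have t3 := tI (p := p) hr (j := 2 * p ^ r - (2 * l + 1)) (by omega) (by omega) (by omega)
      rw [hM] at t3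
      have t4 := tI (p := p) hr (j := 2 * l + 1) (by omega) (by omega) hc
      -- L/(2N-L)
      have hu : ((2 * l + 1 : ℕ) : ℚ) / (2 * ((p ^ r : ℕ) : ℚ) - ((2 * l + 1 : ℕ) : ℚ)) ∈ Zp p := by
        have := U_neg (U_one_add (t4.mulL (x := -2) (neg_mem (nm 2))))
        have e1 : ((2 * l + 1 : ℕ) : ℚ) / (2 * ((p ^ r : ℕ) : ℚ) - ((2 * l + 1 : ℕ) : ℚ)) =
            (-(1 + -2 * (((p ^ r : ℕ) : ℚ) / ((2 * l + 1 : ℕ) : ℚ))))⁻¹ := by
          have e2 : -(1 + -2 * (((p ^ r : ℕ) : ℚ) / ((2 * l + 1 : ℕ) : ℚ))) =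
              (2 * ((p ^ r : ℕ) : ℚ) - ((2 * l + 1 : ℕ) : ℚ)) / ((2 * l + 1 : ℕ) : ℚ) := by
            generalize ((p ^ r : ℕ) : ℚ) = N
            field_simp
            ring
          rw [e2, inv_div]
        rw [e1]; exact this.2.2
      have hv : 2 * (((p ^ r : ℕ) : ℚ) / ((2 * l + 1 : ℕ) : ℚ)) + ((p ^ r : ℕ) : ℚ) / j - 2 ∈ Zp p :=
        sub_mem (add_mem (mul_mem (nm 2) t4.mem) t1.mem) (nm 2)
      have hK2 : I p 2 (((p ^ r : ℕ) : ℚ) ^ 2 * (2 * (j : ℚ) - ((2 * l + 1 : ℕ) : ℚ)) /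
          ((j : ℚ) * (((2 * l + 1 : ℕ) : ℚ) - j) * (2 * ((p ^ r : ℕ) : ℚ) - ((2 * l + 1 : ℕ) : ℚ)))) := by
        rcases Zp_or (p := p) ((j : ℚ) / (((2 * l + 1 : ℕ) : ℚ) - j)) with h | h
        · refine icg ((t1.mul t3).mulR (sub_mem h (one_mem _))) ?_
          generalize ((p ^ r : ℕ) : ℚ) = N at cN cM ⊢
          field_simp
          ring
        · rw [inv_div] at h
          refine icg ((t2.mul t3).mulR (sub_mem (one_mem _) h)) ?_
          generalize ((p ^ r : ℕ) : ℚ) = N at cN cM ⊢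
          field_simp
          ring
      refine icg (hK2.mulR (mul_mem hu hv)) ?_
      generalize ((p ^ r : ℕ) : ℚ) = N at cN cM ⊢
      field_simp
  refine N2 (y := (((p ^ r : ℕ) : ℚ) ^ 2 * (2 * (j : ℚ) - ((2 * l + 1 : ℕ) : ℚ)) *
      (2 * ((p ^ r : ℕ) : ℚ) * j + ((p ^ r : ℕ) : ℚ) * ((2 * l + 1 : ℕ) : ℚ) - 2 * j * ((2 * l + 1 : ℕ) : ℚ)) /
      ((j : ℚ) ^ 2 * (((2 * l + 1 : ℕ) : ℚ) - j) * (2 * ((p ^ r : ℕ) : ℚ) - ((2 * l + 1 : ℕ) : ℚ)) ^ 2)) *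
      (rho (p ^ r) l * om (p ^ r) j * ((p ^ r - 1).choose (j - 1) : ℚ) * ((p ^ r - 1).choose (2 * l + 1 - j - 1) : ℚ))) ?_ ?_
  · exact hQ.mulR (mul_mem (mul_mem (mul_mem hrm homm) (nat_mem _)) (nat_mem _))
  · generalize ((p ^ r : ℕ) : ℚ) = N at cN cM ⊢
    field_simp

end

end Pool.Agent.H547.CV
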