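import Pool.Agent.H547.CV.E

set_option autoImplicit false
set_option linter.unusedSectionVars false

namespace Pool.Agent.H547.CV

open Finset Pool.Agent.R439.PL Pool.Agent.H547
open scoped Nat

variable {p : ℕ} [hp : Fact p.Prime]

theorem odd_pow {r : ℕ} (h2 : p ≠ 2) : p ^ r % 2 = 1 := by
  have : p % 2 = 1 := (Nat.Prime.eq_two_or_odd (Fact.out (p := p.Prime))).resolve_left h2
  simp [Nat.pow_mod, this]

section
variable {r : ℕ} (h2 : p ≠ 2) (hr : 1 ≤ r) (hR : S_R) (hO : S_O) (hW : S_W)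
include h2 hr hR hO hW

theorem Asum {n : ℕ} (hn : p ^ r = 2 * n + 1) :
    I p (2 * r + 2) (∑ l ∈ range (p ^ r), ∑ i ∈ range l, te (p ^ r) l (i + 1) -
      ((p ^ r : ℕ) : ℚ) ^ 2 * ∑ m ∈ range n, ((p ^ r : ℕ) : ℚ) / (2 * (m + 1 : ℕ) : ℕ) * ee (p ^ r) (2 * (m + 1))) := by
  have e1 : range (p ^ r) = range (n + 1 + n) := by rw [hn]; congr 1; ring
  rw [e1, sum_range_add, mul_sum, add_sub_assoc, ← sum_sub_distrib]
  apply I.add
  · apply I.sum
    intro l hl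
    have hl' := mem_range.1 hl
    apply I.sum
    intro i hi
    have hi' := mem_range.1 hi
    exact te_off h2 hr hR hO hW (by omega) (by omega) (by omega) (by omega)
  · apply I.sum
    intro m hm
    have hm' := mem_range.1 hm
    have hmem : 2 * m + 1 ∈ range (n + 1 + m) := mem_range.2 (by omega)
    rw [← add_sum_erase _ _ hmem]
    have b1 : I p (2 * r + 2) (∑ i ∈ (range (n + 1 + m)).erase (2 * m + 1), te (p ^ r) (n + 1 + m) (i + 1)) := by
      apply I.sum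
      intro i hi
      rw [mem_erase, mem_range] at hi
      rcases Nat.lt_or_ge i (2 * m + 1) with h | h
      · rw [te, Nat.choose_eq_zero_of_lt (by omega : p ^ r < 2 * (n + 1 + m) + 1 - (i + 1))]
        exact icg I.zero (by push_cast; ring)
      · exact te_off h2 hr hR hO hW (by omega) (by omega) (by omega) (by omega)
    have b2 := te_main h2 hr hR hO hW (l := n + 1 + m) hn (by omega) (by omega)
    have e2 : n + 1 + m - n = m + 1 := by omega
    rw [e2] at b2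
    refine icg (b2.add b1) ?_
    rw [show 2 * m + 1 + 1 = 2 * (m + 1) by ring]
    ring

theorem Bsum {n : ℕ} (hn : p ^ r = 2 * n + 1) :
    I p 2 (∑ l ∈ range (p ^ r), rho (p ^ r) (l + 1) * ((p ^ r).choose (2 * l + 1) : ℚ) -
      w (p ^ r) * (1 + 5 * ∑ j ∈ range n, ((p ^ r : ℕ) : ℚ) / (2 * (j : ℚ) + 1))) := by
  have e1 : range (p ^ r) = range (n + 1 + n) := by rw [hn]; congr 1; ring
  rw [e1, sum_range_add, sum_range_succ]
  have z : ∑ x ∈ range n, rho (p ^ r) (n + 1 + x + 1) * ((p ^ r).choose (2 * (n + 1 + x) + 1) : ℚ) = 0 := by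
    apply sum_eq_zero
    intro x _
    rw [Nat.choose_eq_zero_of_lt (by omega : p ^ r < 2 * (n + 1 + x) + 1)]
    push_cast; ring
  rw [z]
  have c : ((p ^ r).choose (2 * n + 1) : ℚ) = 1 := by rw [← hn, Nat.choose_self]; norm_num
  rw [c]
  have a1 := (hR p r h2 hr).2 n hn
  have a2 : I p 2 (∑ l ∈ range n, rho (p ^ r) (l + 1) * ((p ^ r).choose (2 * l + 1) : ℚ) -
      ∑ j ∈ range n, w (p ^ r) * (((p ^ r : ℕ) : ℚ) / (2 * (j : ℚ) + 1))) := by
    rw [← sum_sub_distrib]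
    apply I.sum
    intro l hl
    have hl' := mem_range.1 hl
    have t1 := tI (p := p) hr (j := 2 * l + 1) (by omega) (by omega) (by omega)
    have hb := bin1 (p := p) hr (k := 2 * l) (by omega)
    rw [pow_mul, neg_one_sq, one_pow] at hb
    have hrho := (hR p r h2 hr).1 (l + 1) (by omega)
    have hrm := rho_mem h2 hr hR hO hW (l := l + 1) (by omega)
    rw [choose_pred (by omega : 0 < 2 * l + 1) (by omega), show 2 * l + 1 - 1 = 2 * l by omega]
    have e2 : (2 * (l : ℚ) + 1) = ((2 * l + 1 : ℕ) : ℚ) := by push_cast; rfl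
    rw [e2]
    refine icg (I.mul (k := 1) (l := 1) t1 ((hb.mulR hrm).add hrho)) (by ring)
  rw [← mul_sum] at a2
  exact icg (a1.add a2) (by ring)

end

theorem E (hC : S_C) (hR : S_R) (hO : S_O) (hW : S_W) : S_E := by
  intro p _ r h2 hr
  have hodd : p ^ r % 2 = 1 := odd_pow h2
  set n := p ^ r / 2 with hn0
  have hn : p ^ r = 2 * n + 1 := by omega
  have h1 := hC (p ^ r)
  have e1 : ∑ l ∈ range (p ^ r), ∑ i ∈ range l, rho (p ^ r) l * cc (p ^ r) (i + 1) * ((p ^ r).choose (2 * l - i) : ℚ) *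
      (((p ^ r : ℕ) : ℚ) * (2 * ((i : ℚ) + 1) - (2 * l + 1)) * (2 * ((p ^ r : ℕ) : ℚ) * ((i : ℚ) + 1) + ((p ^ r : ℕ) : ℚ) * (2 * l + 1) - 2 * ((i : ℚ) + 1) * (2 * l + 1)) /
        (2 * ((p ^ r : ℕ) : ℚ) - (2 * l + 1)) ^ 2) = ∑ l ∈ range (p ^ r), ∑ i ∈ range l, te (p ^ r) l (i + 1) := by
    refine sum_congr rfl fun l _ => sum_congr rfl fun i hi => ?_
    have hi' := mem_range.1 hi
    rw [te, show 2 * l + 1 - (i + 1) = 2 * l - i by omega]
    push_cast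
    ring
  rw [e1] at h1
  have hA := Asum h2 hr hR hO hW hn
  have hB := Bsum h2 hr hR hO hW hn
  have hK := Kval (p := p) h2 hr hn
  have hOv := Oval (p := p) h2 hr hn
  have hw := wN (p := p) h2 hr hW
  have hwm := w_mem (p := p) h2 hr hW (p ^ r)
  have htw := two_pow (p := p) h2 hr hW
  have hG : ((-2 : ℚ)) ^ (p ^ r) * ((2 * p ^ r).choose (p ^ r) : ℚ) = -(8 * (2 ^ (p ^ r - 1)) ^ 3 * w (p ^ r)) := by
    have q1 : ((2 * p ^ r).choose (p ^ r) : ℚ) = w (p ^ r) * 4 ^ (p ^ r) := by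
      rw [w, div_mul_cancel₀ _ (by positivity), Nat.centralBinom]
    have q2 : (-2 : ℚ) ^ (p ^ r) = -(2 * 2 ^ (p ^ r - 1)) := by
      rw [← pow_succ', show p ^ r - 1 + 1 = p ^ r by omega, Odd.neg_pow (Nat.odd_iff.2 hodd)]
    have q3 : (4 : ℚ) ^ (p ^ r) = 4 * (2 ^ (p ^ r - 1)) ^ 2 := by
      rw [← pow_mul, mul_comm _ 2, pow_mul, show (2 : ℚ) ^ 2 = 4 by norm_num, ← pow_succ', show p ^ r - 1 + 1 = p ^ r by omega]
    rw [q1, q2, q3]; ring
  have h8 : (8 : ℚ) ^ (p ^ r) = 8 * (2 ^ (p ^ r - 1)) ^ 3 := by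
    rw [← pow_mul, mul_comm _ 3, pow_mul, show (2 : ℚ) ^ 3 = 8 by norm_num, ← pow_succ', show p ^ r - 1 + 1 = p ^ r by omega]
  rw [h1, hG, h8]
  have hum : (2 : ℚ) ^ (p ^ r - 1) ∈ Zp p := pow_mem (nm 2) _
  have hOI : I p 1 (∑ j ∈ range n, ((p ^ r : ℕ) : ℚ) / (2 * (j : ℚ) + 1)) := by
    apply I.sum
    intro j hj
    have hj' := mem_range.1 hj
    have := tI (p := p) hr (j := 2 * j + 1) (by omega) (by omega) (by omega)
    push_cast at this ⊢; exact this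
  have hKI : I p 1 (∑ m ∈ range n, ((p ^ r : ℕ) : ℚ) / (2 * (m + 1 : ℕ) : ℕ) * ee (p ^ r) (2 * (m + 1))) := by
    apply I.sum
    intro m hm
    have hm' := mem_range.1 hm
    exact (tI (p := p) hr (j := 2 * (m + 1)) (by omega) (by omega) (by omega)).mulR (ee_mem h2 _ _)
  generalize ∑ l ∈ range (p ^ r), ∑ i ∈ range l, te (p ^ r) l (i + 1) = A at hA ⊢
  generalize ∑ l ∈ range (p ^ r), rho (p ^ r) (l + 1) * ((p ^ r).choose (2 * l + 1) : ℚ) = B at hB ⊢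
  generalize ∑ m ∈ range n, ((p ^ r : ℕ) : ℚ) / (2 * (m + 1 : ℕ) : ℕ) * ee (p ^ r) (2 * (m + 1)) = K at hA hK hKI
  generalize ∑ j ∈ range n, ((p ^ r : ℕ) : ℚ) / (2 * (j : ℚ) + 1) = O at hB hOv hOI
  generalize ∑ j ∈ range n, ((p ^ r : ℕ) : ℚ) / ((j : ℚ) + 1) = H at hK hOv ⊢
  generalize (2 : ℚ) ^ (p ^ r - 1) = u at htw hum ⊢
  generalize w (p ^ r) = W at hB hw hwm ⊢
  have hu3 : I p 1 (u ^ 3 - 1) := icg (htw.mulR (add_mem (add_mem (pow_mem hum 2) hum) (one_mem _))) (by ring)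
  -- 8 u³ W ≡ 4
  have k1 : I p 1 (8 * u ^ 3 * W - 4) := by
    have a1 := hu3.mulR (mul_mem (nm 8) hwm)
    have a2 := hw.mulR (nm 8)
    exact icg (a1.add a2) (by ring)
  have k2 : I p 1 (8 * u ^ 3 * W ^ 3 - 1) := by
    have a1 := k1.mulR (pow_mem hwm 2)
    have a2 := hw.mulR (mul_mem (nm 4) (add_mem hwm (half_mem h2)))
    exact icg (a1.add a2) (by ring)
  have hwu : 8 * u ^ 3 * W ∈ Zp p := mul_mem (mul_mem (nm 8) (pow_mem hum 3)) hwm
  have f1 := (hA.mulR hwu).neg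
  have f2 : I p (2 * r + 2) (((p ^ r : ℕ) : ℚ) ^ 2 * (8 * u ^ 3 * W ^ 2 * (B - W * (1 + 5 * O)) + 5 * ((8 * u ^ 3 * W ^ 3 - 1) * O) -
      (8 * u ^ 3 * W - 4) * K + 5 * (O + 1 / 2 * H) - 4 * (K + 1 / 2 * H))) := by
    refine N2 ?_ rfl
    have g1 := hB.mulL (mul_mem hwu hwm)
    have g2 := (I.mul (k := 1) (l := 1) k2 hOI).mulL (nm 5)
    have g3 := I.mul (k := 1) (l := 1) k1 hKI
    have g4 := hOv.mulL (nm 5)
    have g5 := hK.mulL (nm 4)
    exact icg ((((g1.add g2).sub g3).add g4).sub g5) (by ring)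
  exact icg (f1.add f2) (by ring)

end Pool.Agent.H547.CV
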