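import Pool.Agent.H547.CV.DF
import Pool.Agent.H547.CV.EF
import Pool.Agent.H264.CV322.B
import Pool.Agent.H824.CV322.O
import Pool.Agent.H102.CV322.W
import Pool.Agent.H588.CV322.R

set_option autoImplicit false
set_option linter.unusedSectionVars false

namespace Pool.Agent.H547.CV

open Finset Pool.Agent.R439.PL Pool.Agent.H547
open scoped Nat

variable {p : ℕ} [hp : Fact p.Prime]

theorem hR : S_R := Pool.Agent.H588.CV322.s_r
theorem hO : S_O := Pool.Agent.H824.CV322.O hR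
theorem hW : S_W := Pool.Agent.H102.CV322.proof_W
theorem hB : S_B := Pool.Agent.H264.CV322.B.main

theorem I_num {k : ℕ} {x : ℚ} (h : I p k x) : (p : ℤ) ^ k ∣ x.num := by
  obtain ⟨y, ⟨a, b, hb, rfl⟩, hx⟩ := h
  have hb0 : (b : ℚ) ≠ 0 := by
    intro h0; apply hb
    have : b = 0 := by exact_mod_cast h0
    rw [this]; exact dvd_zero _
  have hd0 : (x.den : ℚ) ≠ 0 := by exact_mod_cast x.den_nz
  have e1 : (x.num : ℚ) * b = (p : ℚ) ^ k * a * x.den := by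
    have : x * x.den = x.num := Rat.mul_den_eq_num x
    rw [← this, hx]
    field_simp
  have e2 : x.num * b = (p : ℤ) ^ k * (a * x.den) := by
    have : ((x.num * b : ℤ) : ℚ) = (((p : ℤ) ^ k * (a * x.den) : ℤ) : ℚ) := by
      push_cast; rw [e1]; ring
    exact_mod_cast this
  have hcop : IsCoprime ((p : ℤ) ^ k) b := by
    apply IsCoprime.pow_left
    exact (Prime.coprime_iff_not_dvd (pz (p := p))).2 hb
  exact hcop.dvd_of_dvd_mul_right ⟨_, e2⟩

theorem fin (hD : S_D) (hE : S_E) (h2 : p ≠ 2) {r : ℕ} (hr : 1 ≤ r) :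
    I p (2 * r + 2) (SS 16 (p ^ r) - ((p ^ r : ℕ) : ℚ) ^ 2 / 4 ^ (p ^ r - 1)) ∧
    I p (2 * r + 2) (SS (-8) (p ^ r) - ((p ^ r : ℕ) : ℚ) ^ 2 / 4 ^ (p ^ r - 1)) := by
  have h1 := hD p r h2 hr
  have h3 := hE p r h2 hr
  obtain ⟨w1, w2⟩ := hW p r h2 hr
  have hodd : p ^ r % 2 = 1 := odd_pow h2
  have hu0 : U p ((2 : ℚ) ^ (p ^ r - 1)) := (U2 h2).pow _
  have h4 : (4 : ℚ) ^ (p ^ r - 1) = ((2 : ℚ) ^ (p ^ r - 1)) ^ 2 := by
    rw [← pow_mul, mul_comm _ 2, pow_mul]; norm_num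
  have h8 : (8 : ℚ) ^ (p ^ r) = 8 * (2 ^ (p ^ r - 1)) ^ 3 := by
    rw [← pow_mul, mul_comm _ 3, pow_mul, show (2 : ℚ) ^ 3 = 8 by norm_num, ← pow_succ', show p ^ r - 1 + 1 = p ^ r by omega]
  rw [h4] at w1 ⊢
  rw [h8] at h3
  have htw := two_pow (p := p) h2 hr hW
  have hwm := w_mem (p := p) h2 hr hW (p ^ r)
  generalize ∑ j ∈ range (p ^ r / 2), ((p ^ r : ℕ) : ℚ) / ((j : ℚ) + 1) = H at h1 h3 w2
  generalize (2 : ℚ) ^ (p ^ r - 1) = u at htw hu0 w1 w2 h3 ⊢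
  generalize w (p ^ r) = W at hwm h1 h3 w1
  obtain ⟨u0, um, vm⟩ := hu0
  set v := u⁻¹ with hv
  have huv : u * v = 1 := mul_inv_cancel₀ u0
  have sq : I p 2 ((u - 1) ^ 2) := Ipow htw 2
  have ww : I p 2 (2 * W - v ^ 2) := by
    refine icg (w1.mulR (mul_mem (nm 2) (pow_mem vm 2))) ?_
    have e : u ^ 2 * v ^ 2 = 1 := by rw [← mul_pow, huv, one_pow]
    linear_combination (2 * W) * e
  have hH : I p 2 (H - (2 - 2 * u)) := icg (w2.mulL (nm 2)) (by ring)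
  constructor
  · have key : I p 2 (4 * W ^ 2 - H - v ^ 2) := by
      have a1 := ww.mulR (add_mem (mul_mem (nm 2) hwm) (pow_mem vm 2))
      have a2 := hH.neg
      have a3 := sq.mulR (mul_mem (pow_mem vm 4) (add_mem (add_mem (add_mem (mul_mem (nm 2) (pow_mem um 3)) (mul_mem (nm 2) (pow_mem um 2))) (mul_mem (nm 2) um)) (one_mem _)))
      refine icg ((a1.add a2).add a3) ?_
      have e4 : u ^ 4 * v ^ 4 = 1 := by rw [← mul_pow, huv, one_pow]
      have e2 : u ^ 2 * v ^ 4 = v ^ 2 := by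
        have : u ^ 2 * v ^ 4 = (u * v) ^ 2 * v ^ 2 := by ring
        rw [this, huv]; ring
      have e5 : u ^ 5 * v ^ 4 = u := by
        have : u ^ 5 * v ^ 4 = (u * v) ^ 4 * u := by ring
        rw [this, huv]; ring
      linear_combination 2 * e5 - 2 * e4 - e2
    refine icg (h1.add (N2 key rfl)) ?_
    have : ((p ^ r : ℕ) : ℚ) ^ 2 / u ^ 2 = ((p ^ r : ℕ) : ℚ) ^ 2 * v ^ 2 := by rw [hv, inv_pow]; rfl
    rw [this]; ring
  · have key : I p 2 (8 * u ^ 3 * W ^ 3 - 1 / 2 * H - v ^ 2) := by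
      have a1 := ww.mulR (mul_mem (pow_mem um 3) (add_mem (add_mem (mul_mem (nm 4) (pow_mem hwm 2)) (mul_mem (mul_mem (nm 2) hwm) (pow_mem vm 2))) (pow_mem vm 4)))
      have a2 := (hH.mulL (half_mem h2)).neg
      have a3 := sq.mulR (mul_mem (pow_mem vm 3) (add_mem (add_mem (one_mem _) um) (pow_mem um 2)))
      refine icg ((a1.add a2).add a3) ?_
      have e3 : u ^ 3 * v ^ 6 = v ^ 3 := by
        have : u ^ 3 * v ^ 6 = (u * v) ^ 3 * v ^ 3 := by ring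
        rw [this, huv]; ring
      have e1 : u * v ^ 3 = v ^ 2 := by
        have : u * v ^ 3 = (u * v) * v ^ 2 := by ring
        rw [this, huv]; ring
      have e33 : u ^ 3 * v ^ 3 = 1 := by rw [← mul_pow, huv, one_pow]
      have e43 : u ^ 4 * v ^ 3 = u := by
        have : u ^ 4 * v ^ 3 = (u * v) ^ 3 * u := by ring
        rw [this, huv]; ring
      linear_combination (-1 : ℚ) * e3 + e43 - e33 - e1
    refine icg (h3.add (N2 key rfl)) ?_
    have : ((p ^ r : ℕ) : ℚ) ^ 2 / u ^ 2 = ((p ^ r : ℕ) : ℚ) ^ 2 * v ^ 2 := by rw [hv, inv_pow]; rfl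
    rw [this]; ring

end Pool.Agent.H547.CV
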