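import Pool.Agent.H547.CV.Stm

set_option autoImplicit false
set_option linter.unusedSectionVars false

namespace Pool.Agent.H547.CV

open Finset Pool.Agent.R439.PL Pool.Agent.H547
open scoped Nat

variable {p : ℕ} [hp : Fact p.Prime]

theorem Zp_or (x : ℚ) : x ∈ Zp p ∨ x⁻¹ ∈ Zp p := by
  by_cases hb : (p : ℤ) ∣ (x.den : ℤ)
  · right
    have ha : ¬ (p : ℤ) ∣ x.num := by
      intro h
      have h1 := x.reduced
      have h2 : p ∣ x.num.natAbs := Int.natCast_dvd.1 h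
      have h3 : p ∣ x.den := Int.natCast_dvd_natCast.1 hb
      have := Nat.dvd_gcd h2 h3
      rw [h1] at this
      exact hp.out.one_lt.ne' (Nat.dvd_one.1 this)
    refine ⟨x.den, x.num, ha, ?_⟩
    conv_lhs => rw [← Rat.num_div_den x]
    rw [inv_div]
    push_cast
    rfl
  · left
    refine ⟨x.num, x.den, hb, ?_⟩
    push_cast
    exact (Rat.num_div_den x).symm

theorem U2 (h2 : p ≠ 2) : U p (2 : ℚ) := u2 (lt_of_le_of_ne hp.out.two_le (Ne.symm h2))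

theorem U_one_add {x : ℚ} (hx : I p 1 x) : U p (1 + x) := by
  apply U_of_not_I (add_mem (one_mem _) hx.mem)
  intro h
  exact not_I_one (p := p) (icg (h.sub hx) (by ring))

theorem U_neg {x : ℚ} (hx : U p x) : U p (-x) :=
  ⟨neg_ne_zero.2 hx.1, neg_mem hx.2.1, by rw [inv_neg]; exact neg_mem hx.2.2⟩

section
variable {r : ℕ} (hr : 1 ≤ r)
include hr

theorem tI {j : ℕ} (hj : 0 < j) (hj2 : j < 2 * p ^ r) (hne : j ≠ p ^ r) : I p 1 (((p ^ r : ℕ) : ℚ) / j) := by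
  obtain ⟨a, j', hj', rfl⟩ := Nat.exists_eq_pow_mul_and_not_dvd hj.ne' p hp.out.ne_one
  have ha : a < r := by
    by_contra hc
    push Not at hc
    obtain ⟨c, rfl⟩ := Nat.exists_eq_add_of_le hc
    have hpos : 0 < p ^ r := pow_pos hp.out.pos r
    have e : p ^ (r + c) * j' = p ^ r * (p ^ c * j') := by rw [pow_add]; ring
    rw [e] at hj2 hne hj
    have h1 : p ^ c * j' < 2 := by
      by_contra hcc
      push Not at hcc
      have := Nat.mul_le_mul_left (p ^ r) hcc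
      omega
    have h2 : p ^ c * j' ≠ 0 := by
      intro h0; rw [h0, mul_zero] at hj; exact lt_irrefl _ hj
    have h3 : p ^ c * j' = 1 := by omega
    rw [h3, mul_one] at hne
    exact hne rfl
  have hu : U p (j' : ℚ) := by
    have : ¬ (p : ℤ) ∣ (j' : ℤ) := fun h => hj' (Int.natCast_dvd_natCast.1 h)
    exact_mod_cast U_int this
  have hp0 := p_ne (p := p)
  have e : ((p ^ r : ℕ) : ℚ) / ((p ^ a * j' : ℕ) : ℚ) = (p : ℚ) ^ (r - a) * (j' : ℚ)⁻¹ := by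
    have := hu.1
    push_cast
    obtain ⟨c, rfl⟩ := Nat.exists_eq_add_of_lt ha
    rw [show a + c + 1 - a = c + 1 by omega, show a + c + 1 = a + (c + 1) by ring, pow_add]
    field_simp
  rw [e]
  exact I.mono (by omega : 1 ≤ r - a) ⟨_, hu.2.2, rfl⟩

theorem bin1 {k : ℕ} (hk : k < p ^ r) : I p 1 (((p ^ r - 1).choose k : ℚ) - (-1) ^ k) := by
  induction k with
  | zero => simpa using I.zero
  | succ k ih =>
    have h0 := ih (by omega)
    have ht := tI (p := p) hr (j := k + 1) (by omega) (by omega) (by omega)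
    have e : ((p ^ r - 1).choose (k + 1) : ℚ) = ((p ^ r - 1).choose k : ℚ) * (((p ^ r : ℕ) : ℚ) / ((k + 1 : ℕ) : ℚ) - 1) := by
      have h1 := Nat.choose_succ_right_eq (p ^ r - 1) k
      have h2 : ((p ^ r - 1 - k : ℕ) : ℚ) = ((p ^ r : ℕ) : ℚ) - (k + 1) := by
        rw [show p ^ r - 1 - k = p ^ r - (k + 1) by omega, Nat.cast_sub (by omega)]; push_cast; ring
      have h3 : ((p ^ r - 1).choose (k + 1) : ℚ) * (k + 1) = ((p ^ r - 1).choose k : ℚ) * (((p ^ r : ℕ) : ℚ) - (k + 1)) := by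
        rw [← h2]; exact_mod_cast h1
      have h4 : ((k : ℚ) + 1) ≠ 0 := by positivity
      have h5 : ((p ^ r : ℕ) : ℚ) / ((k + 1 : ℕ) : ℚ) - 1 = (((p ^ r : ℕ) : ℚ) - (k + 1)) / ((k : ℚ) + 1) := by
        push_cast; field_simp
      rw [h5, ← mul_div_assoc, ← h3, mul_div_cancel_right₀ _ h4]
    rw [e, pow_succ]
    have h1 : I p 1 ((((p ^ r - 1).choose k : ℕ) : ℚ) * (((p ^ r : ℕ) : ℚ) / ((k + 1 : ℕ) : ℚ))) := ht.mulL (nat_mem _)
    exact icg (h1.sub h0) (by ring)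

theorem bin2U {k : ℕ} (hk : k < 2 * p ^ r) : U p ((2 * p ^ r - 1).choose k : ℚ) := by
  induction k with
  | zero => simpa using U.one
  | succ k ih =>
    have h0 := ih (by omega)
    have e : ((2 * p ^ r - 1).choose (k + 1) : ℚ) = ((2 * p ^ r - 1).choose k : ℚ) * (2 * (((p ^ r : ℕ) : ℚ) / ((k + 1 : ℕ) : ℚ)) - 1) := by
      have h1 := Nat.choose_succ_right_eq (2 * p ^ r - 1) k
      have h2 : ((2 * p ^ r - 1 - k : ℕ) : ℚ) = 2 * ((p ^ r : ℕ) : ℚ) - (k + 1) := by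
        rw [show 2 * p ^ r - 1 - k = 2 * p ^ r - (k + 1) by omega, Nat.cast_sub (by omega)]; push_cast; ring
      have h3 : ((2 * p ^ r - 1).choose (k + 1) : ℚ) * (k + 1) = ((2 * p ^ r - 1).choose k : ℚ) * (2 * ((p ^ r : ℕ) : ℚ) - (k + 1)) := by
        rw [← h2]; exact_mod_cast h1
      have h4 : ((k : ℚ) + 1) ≠ 0 := by positivity
      have h5 : 2 * (((p ^ r : ℕ) : ℚ) / ((k + 1 : ℕ) : ℚ)) - 1 = (2 * ((p ^ r : ℕ) : ℚ) - (k + 1)) / ((k : ℚ) + 1) := by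
        push_cast; field_simp
      rw [h5, ← mul_div_assoc, ← h3, mul_div_cancel_right₀ _ h4]
    rw [e]
    apply h0.mul
    by_cases hk' : k + 1 = p ^ r
    · have : ((k + 1 : ℕ) : ℚ) ≠ 0 := by positivity
      rw [← hk', div_self this]
      have e2 : (2 * 1 - 1 : ℚ) = 1 := by norm_num
      rw [e2]; exact U.one
    · have ht := tI (p := p) hr (j := k + 1) (by omega) (by omega) hk'
      have := U_neg (U_one_add (ht.mulL (x := -2) (neg_mem (nm 2))))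
      have e2 : 2 * (((p ^ r : ℕ) : ℚ) / ((k + 1 : ℕ) : ℚ)) - 1 = -(1 + -2 * (((p ^ r : ℕ) : ℚ) / ((k + 1 : ℕ) : ℚ))) := by ring
      rw [e2]; exact this

theorem bin3 {j : ℕ} (hj : j < p ^ r) : I p 1 (((p ^ r + j).choose (p ^ r) : ℚ) - 1) := by
  induction j with
  | zero => simpa using I.zero
  | succ j ih =>
    have h0 := ih (by omega)
    have ht := tI (p := p) hr (j := j + 1) (by omega) (by omega) (by omega)
    have e : ((p ^ r + (j + 1)).choose (p ^ r) : ℚ) = ((p ^ r + j).choose (p ^ r) : ℚ) * (1 + ((p ^ r : ℕ) : ℚ) / ((j + 1 : ℕ) : ℚ)) := by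
      have h1 : (p ^ r + j + 1).choose (p ^ r) * (p ^ r + j + 1 - p ^ r) = (p ^ r + j + 1) * (p ^ r + j).choose (p ^ r) := by
        have h2 := Nat.choose_mul_succ_eq (p ^ r + j) (p ^ r)
        rw [mul_comm (p ^ r + j + 1)]; exact h2.symm
      have h2 : p ^ r + j + 1 - p ^ r = j + 1 := by omega
      rw [h2] at h1
      have h3 : ((p ^ r + (j + 1)).choose (p ^ r) : ℚ) * (j + 1) = (((p ^ r : ℕ) : ℚ) + j + 1) * ((p ^ r + j).choose (p ^ r) : ℚ) := by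
        rw [← add_assoc]; exact_mod_cast h1
      have h4 : ((j : ℚ) + 1) ≠ 0 := by positivity
      have h5 : 1 + ((p ^ r : ℕ) : ℚ) / ((j + 1 : ℕ) : ℚ) = (((p ^ r : ℕ) : ℚ) + j + 1) / ((j : ℚ) + 1) := by
        push_cast; field_simp; ring
      rw [h5, ← mul_div_assoc, mul_comm ((p ^ r + j).choose (p ^ r) : ℚ), ← h3, mul_div_cancel_right₀ _ h4]
    rw [e]
    have h1 : I p 1 ((((p ^ r + j).choose (p ^ r) : ℕ) : ℚ) * (((p ^ r : ℕ) : ℚ) / ((j + 1 : ℕ) : ℚ))) := ht.mulL (nat_mem _)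
    exact icg (h1.add h0) (by ring)

end

theorem Npow (r : ℕ) : I p r ((p ^ r : ℕ) : ℚ) := ⟨1, one_mem _, by push_cast; ring⟩

/-- multiply a congruence by `N^2` -/
theorem N2 {r k : ℕ} {x y : ℚ} (hy : I p k y) (e : x = ((p ^ r : ℕ) : ℚ) ^ 2 * y) : I p (2 * r + k) x := by
  have h1 : I p (2 * r) (((p ^ r : ℕ) : ℚ) ^ 2) := ⟨1, one_mem _, by push_cast; ring⟩
  rw [e]; exact h1.mul hy

/-- `∑_{0<l<N} N/l ≡ 0 (mod p²)` -/
theorem sum_t {r : ℕ} (hr : 1 ≤ r) (h2 : p ≠ 2) : I p 2 (∑ l ∈ range (p ^ r - 1), ((p ^ r : ℕ) : ℚ) / ((l : ℚ) + 1)) := by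
  have hU := U2 h2
  have e : ∑ l ∈ range (p ^ r - 1), ((p ^ r : ℕ) : ℚ) / ((l : ℚ) + 1) =
      (2 : ℚ)⁻¹ * ∑ l ∈ range (p ^ r - 1), (((p ^ r : ℕ) : ℚ) / ((l + 1 : ℕ) : ℚ)) * (((p ^ r : ℕ) : ℚ) / ((p ^ r - (l + 1) : ℕ) : ℚ)) := by
    have h1 : ∑ l ∈ range (p ^ r - 1), (((p ^ r : ℕ) : ℚ) / ((l + 1 : ℕ) : ℚ)) * (((p ^ r : ℕ) : ℚ) / ((p ^ r - (l + 1) : ℕ) : ℚ)) =
        ∑ l ∈ range (p ^ r - 1), (((p ^ r : ℕ) : ℚ) / ((l : ℚ) + 1) + ((p ^ r : ℕ) : ℚ) / ((p ^ r - 1 - 1 - l : ℕ) + 1 : ℚ)) := by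
      refine sum_congr rfl fun l hl => ?_
      have hl' := mem_range.1 hl
      have c1 : ((p ^ r - (l + 1) : ℕ) : ℚ) = ((p ^ r : ℕ) : ℚ) - (l + 1) := by rw [Nat.cast_sub (by omega)]; push_cast; ring
      have c2 : ((p ^ r - 1 - 1 - l : ℕ) : ℚ) + 1 = ((p ^ r : ℕ) : ℚ) - (l + 1) := by
        rw [show p ^ r - 1 - 1 - l = p ^ r - (l + 2) by omega, Nat.cast_sub (by omega)]; push_cast; ring
      rw [c1, c2]
      have h3 : ((l : ℚ) + 1) ≠ 0 := by positivity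
      have h4 : ((p ^ r : ℕ) : ℚ) - (l + 1) ≠ 0 := by
        have : ((l : ℚ) + 1) < ((p ^ r : ℕ) : ℚ) := by exact_mod_cast (by omega : l + 1 < p ^ r)
        linarith
      push_cast at h4 ⊢
      field_simp
      ring
    rw [h1, sum_add_distrib, sum_range_reflect (fun l => ((p ^ r : ℕ) : ℚ) / ((l : ℚ) + 1)) (p ^ r - 1)]
    ring
  rw [e]
  apply I.mulL hU.2.2
  apply I.sum
  intro l hl
  have hl' := mem_range.1 hl
  exact (tI hr (by omega) (by omega) (by omega)).mul (tI hr (by omega) (by omega) (by omega))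

end Pool.Agent.H547.CV
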