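import Pool.Agent.H547.Base

set_option autoImplicit false

/-!
# Statements for MP_322b37 (difference of two convolution sums)

Congruence calculus: `Pool.Agent.R439.PL` (library module `Pool/Graph/R_seed8/R439/PLoc.lean`): `Zp p` is the subring of `ℚ` of
rationals with denominator prime to `p`, `I p k x` says `x ∈ p^k Zp`, `U p x` says that `x` is a unit of `Zp`.
All statements below are checked numerically.
-/

namespace Pool.Agent.H547.CV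

open Finset Pool.Agent.R439.PL
open scoped Nat

def w (k : ℕ) : ℚ := (Nat.centralBinom k : ℚ) / 4 ^ k

def b3 (k : ℕ) : ℚ := (3 * (k : ℚ) + 1) * (Nat.centralBinom k : ℚ) ^ 3

/-- the truncated convolution sums -/
def SS (x : ℚ) (N : ℕ) : ℚ := ∑ k ∈ range N, (∑ j ∈ range (k + 1), b3 j * b3 (k - j)) / x ^ k

def h (l i : ℕ) : ℚ := if l = 0 ∧ i = 0 then 0 else w l * w i * ((l + i - 1)! : ℚ) / ((l ! : ℚ) * (i ! : ℚ))

def rho (N l : ℕ) : ℚ := w l * w (N - l) / ((2 * N).choose (2 * l) : ℚ)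

def cc (N i : ℕ) : ℚ := w i * w (N - i) * (N.choose i : ℚ)

/-- discrete Stokes formula -/
theorem stokes (A B : ℕ → ℕ → ℚ) (N : ℕ) :
    ∑ m ∈ range N, A (m + 1) (m + 1) * (B m m - B (m + 1) (m + 1)) =
      ∑ m ∈ range N, A (m + 1) 0 * (B m 0 - B (m + 1) 0) + ∑ i ∈ range N, A N (i + 1) * (B N i - B N (i + 1)) +
      ∑ m ∈ range N, ∑ i ∈ range (m + 1), (A (m + 1) (i + 1) - A (m + 1) i) * (B m i - B (m + 1) i) -
      ∑ l ∈ range N, ∑ i ∈ range l, (A (l + 1) (i + 1) - A l (i + 1)) * (B l i - B l (i + 1)) := by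
  induction N with
  | zero => simp
  | succ N ih =>
    rw [sum_range_succ, ih, sum_range_succ (n := N) (f := fun m => A (m + 1) 0 * (B m 0 - B (m + 1) 0)),
      sum_range_succ (n := N) (f := fun m => ∑ i ∈ range (m + 1), (A (m + 1) (i + 1) - A (m + 1) i) * (B m i - B (m + 1) i)),
      sum_range_succ (n := N) (f := fun l => ∑ i ∈ range l, (A (l + 1) (i + 1) - A l (i + 1)) * (B l i - B l (i + 1))),
      sum_range_succ (n := N) (f := fun i => A (N + 1) (i + 1) * (B (N + 1) i - B (N + 1) (i + 1)))]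
    have e1 : ∑ i ∈ range N, (A (N + 1) (i + 1) - A N (i + 1)) * (B N i - B N (i + 1)) =
        ∑ i ∈ range N, A (N + 1) (i + 1) * (B N i - B N (i + 1)) - ∑ i ∈ range N, A N (i + 1) * (B N i - B N (i + 1)) := by
      rw [← sum_sub_distrib]; exact sum_congr rfl fun i _ => by ring
    have e2 : ∑ i ∈ range (N + 1), (A (N + 1) (i + 1) - A (N + 1) i) * (B N i - B (N + 1) i) =
        A (N + 1) (N + 1) * (B N N - B (N + 1) N) - A (N + 1) 0 * (B N 0 - B (N + 1) 0) +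
        ∑ i ∈ range N, (A (N + 1) (i + 1) * (B N i - B N (i + 1)) - A (N + 1) (i + 1) * (B (N + 1) i - B (N + 1) (i + 1))) := by
      have a1 : ∑ i ∈ range (N + 1), (A (N + 1) (i + 1) - A (N + 1) i) * (B N i - B (N + 1) i) =
          ∑ i ∈ range (N + 1), A (N + 1) (i + 1) * (B N i - B (N + 1) i) -
          ∑ i ∈ range (N + 1), A (N + 1) i * (B N i - B (N + 1) i) := by
        rw [← sum_sub_distrib]; exact sum_congr rfl fun i _ => by ring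
      rw [a1, sum_range_succ, sum_range_succ' (fun i => A (N + 1) i * (B N i - B (N + 1) i))]
      have a2 : ∑ i ∈ range N, (A (N + 1) (i + 1) * (B N i - B N (i + 1)) - A (N + 1) (i + 1) * (B (N + 1) i - B (N + 1) (i + 1))) =
          ∑ i ∈ range N, A (N + 1) (i + 1) * (B N i - B (N + 1) i) -
          ∑ i ∈ range N, A (N + 1) (i + 1) * (B N (i + 1) - B (N + 1) (i + 1)) := by
        rw [← sum_sub_distrib]; exact sum_congr rfl fun i _ => by ring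
      rw [a2]; ring
    rw [e1, e2, sum_sub_distrib]
    ring

/-- **S_B** (exact identity, `x = 16`).

Proof. Let `F l i = l² h l i` and `G l i = i² h l i`. For all `l, i : ℕ`: `F (l+1) i - F l i = G l (i+1) - G l i`
(for `(l,i) ≠ (0,0)` because `h (l+1) i = h l i (2l+1)(l+i)/(2(l+1)²)`, and symmetrically; by hand for `(0,0)`).
Put `Ψ l i = ∑_{m<i} F l m`. Then `Ψ l 0 = 0`, `Ψ 0 i = 0`, `Ψ l (i+1) - Ψ l i = F l i`, `Ψ (l+1) i - Ψ l i = G l i`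
(telescoping, `G l 0 = 0`), and `2 (Ψ (k+1) (k+1) - Ψ k k) = 2 (F (k+1) k + G k k) = (3k+1) 4^k w(k)^3 = b3 k / 16^k`.
So with `P k = 2 Ψ k k = ∑_{j<k} b3 j/16^j`: `SS 16 N = ∑_{m<N} P (m+1) (P (N-m) - P (N-m-1))`
(`SS 16 N = ∑_{i+j<N} β_i β_j = ∑_{j<N} β_j P (N-j)`, `β_j = b3 j/16^j`; put `m = N-1-j`).
Apply `stokes` with `A l i = Ψ l i`, `B l i = Ψ (N-l) (N-i)`. -/
def S_B : Prop := ∀ N : ℕ, SS 16 N / 4 =
  ∑ l ∈ range (N + 1), ∑ i ∈ range l, (l : ℚ) ^ 2 * ((N : ℚ) - i) ^ 2 * h l i * h (N - l) (N - i) -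
  ∑ l ∈ range N, ∑ i ∈ range l, ((i : ℚ) + 1) ^ 2 * ((N : ℚ) - l) ^ 2 * h l (i + 1) * h (N - l) (N - (i + 1))

/-- **S_C** (exact identity, `x = -8`).

Proof. Let `F l i = w l w i (-2)^i (2l)!/(i! (2l-1-i)!)` for `i < 2l` and `F l i = 0` for `i ≥ 2l`;
`G l i = - i² w l w i (-2)^i (2l)!/(i! (2l+1-i)!)` for `i ≤ 2l+1` and `0` for `i > 2l+1`. For all `l, i : ℕ`:
`F (l+1) i - F l i = G l (i+1) - G l i`. Put `Ψ l i = ∑_{m<i} F l m`. Then `Ψ l 0 = 0`, `Ψ 0 i = 0`,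
`Ψ l (i+1) - Ψ l i = F l i`, `Ψ (l+1) i - Ψ l i = G l i` (telescoping, `G l 0 = 0`), and
`Ψ (k+1) (k+1) - Ψ k k = F (k+1) k + G k k = (3k+1) (-8)^k w(k)^3 = b3 k / (-8)^k`. With `P k = Ψ k k = ∑_{j<k} b3 j/(-8)^j`:
`SS (-8) N = ∑_{m<N} P (m+1) (P (N-m) - P (N-m-1))`. Apply `stokes` with `A l i = Ψ l i`, `B l i = Ψ (N-l) (N-i)`:
`SS (-8) N = ∑_{m<N} ∑_{i≤m} F (m+1) i G (N-m-1) (N-i) - ∑_{l<N} ∑_{i<l} G l (i+1) F (N-l) (N-i-1)`.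
Now `F l i G (N-l) (N-i) = - (-2)^N C(2N,N) rho N l cc N i (N-i)² C(N, 2l-i-1)` (for `0 ≤ i < l ≤ N`) and
`G l i F (N-l) (N-i) = - (-2)^N C(2N,N) rho N l cc N i i² C(N, 2l+1-i)` (for `1 ≤ i ≤ l < N`). In the first sum take out the terms
with `i = 0` (they give the last sum of the statement, `cc N 0 = w N`); write the others with `i+1` for `i` (`i < m`), `l = m`:
the summand is then `- (-2)^N C(2N,N) rho N (m+1) cc N (i+1) (N-i-1)² C(N, 2m-i)`, and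
`rho N (l+1) (2N-2l-1)² = rho N l (2l+1)²` (for `l < N`); with `L = 2l+1`, `j = i+1`:
`j² - (N-j)² L²/(2N-L)² = N (2j-L) (2Nj+NL-2jL)/(2N-L)²`. -/
def S_C : Prop := ∀ N : ℕ, SS (-8) N = (-2) ^ N * ((2 * N).choose N : ℚ) *
  (∑ l ∈ range N, ∑ i ∈ range l, rho N l * cc N (i + 1) * (N.choose (2 * l - i) : ℚ) *
      ((N : ℚ) * (2 * ((i : ℚ) + 1) - (2 * l + 1)) * (2 * N * ((i : ℚ) + 1) + N * (2 * l + 1) - 2 * ((i : ℚ) + 1) * (2 * l + 1)) /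
        (2 * (N : ℚ) - (2 * l + 1)) ^ 2) -
    (N : ℚ) ^ 2 * w N * ∑ l ∈ range N, rho N (l + 1) * (N.choose (2 * l + 1) : ℚ))

/-- **S_R**. For an odd prime `p`, `r ≥ 1`, `N = p^r`: (a) `rho N l ≡ w N (mod p)` for `l ≤ N`;
(b) if `N = 2l+1`, then `rho N (l+1) ≡ w N (1 + 4 ∑_{j<l} N/(2j+1)) (mod p²)`.

Proof. `rho N 0 = w N` and `rho N (l+1) (2N-2l-1)² = rho N l (2l+1)²` for `l < N`, so
`rho N l = w N ∏_{j<l} (1 - 2N/(2j+1))^(-2)`. For `0 < L < 2N`, `L ≠ N`: `N/L ∈ p Zp` (as `p^r ∤ L`); the factor with `2j+1 = N` is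
`(-1)^(-2) = 1`. So every factor is `≡ 1 (mod p)`; and in (b) the factor `j = l` is `1`, the others are `≡ 1 + 4N/(2j+1) (mod p²)`.
`w N ∈ Zp` since `p` is odd. -/
def S_R : Prop := ∀ (p : ℕ) [Fact p.Prime] (r : ℕ), p ≠ 2 → 1 ≤ r →
  (∀ l ≤ p ^ r, I p 1 (rho (p ^ r) l - w (p ^ r))) ∧
  ∀ l : ℕ, p ^ r = 2 * l + 1 → I p 2 (rho (p ^ r) (l + 1) - w (p ^ r) * (1 + 4 * ∑ j ∈ range l, ((p ^ r : ℕ) : ℚ) / (2 * (j : ℚ) + 1)))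

/-- **S_O**. For an odd prime `p`, `r ≥ 1`, `N = p^r`, `0 < l < N`: `l w(l) w(N-l)/N ∈ Zp`, and it is `≡ -1/2 (mod p)` if `2l < N`,
`≡ 1/2 (mod p)` if `2l > N`.

Proof. `w l w (N-l) = rho N l C(2N,2l)` and `C(2N,2l) 2l = 2N C(2N-1,2l-1)`, so `l w l w (N-l)/N = rho N l C(2N-1,2l-1)`.
`C(2N-1,2l-1) = ∏_{0<j<2l} (2N-j)/j`, where `(2N-j)/j = -(1 - 2N/j) ≡ -1 (mod p)` for `j ≠ N` (`N/j ∈ p Zp` for `0 < j < 2N`, `j ≠ N`)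
and it is `1` for `j = N`; so `C(2N-1,2l-1) ≡ -1` if `2l < N` and `≡ 1` if `2l > N`. Finally `rho N l ≡ w N ≡ 1/2 (mod p)`, `w N = C(2N,N)/4^N`,
`C(2N,N) = 2 C(2N-1,N-1) ≡ 2` (`N-1` is even), `4^N ≡ 4 (mod p)`. -/
def S_O : Prop := ∀ (p : ℕ) [Fact p.Prime] (r : ℕ), p ≠ 2 → 1 ≤ r → ∀ l : ℕ, 0 < l → l < p ^ r →
  I p 1 ((l : ℚ) * (w l * w (p ^ r - l)) / ((p ^ r : ℕ) : ℚ) - (if 2 * l < p ^ r then -1 / 2 else 1 / 2))

/-- **S_W**. For an odd prime `p`, `r ≥ 1`, `N = p^r`: `4^(N-1) w N ≡ 1/2 (mod p²)` and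
`2^(N-1) ≡ 1 - (1/2) ∑_{0<j<N/2} N/j (mod p²)`.

Proof. `4^(N-1) w N = C(2N,N)/4 = C(2N-1,N-1)/2` and `C(2N-1,N-1) = ∏_{0<j<N} (1 - 2N/j)` (`N-1` even) `≡ 1 - 2 ∑ N/j`, and
`2 ∑_{0<j<N} N/j = ∑ (N/j + N/(N-j)) = ∑ N²/(j(N-j)) ≡ 0 (mod p²)`.
Second part: `N = 2n+1`. `C(N-1,n) = ∏_{0<j≤n} (N-j)/j = (-1)^n ∏ (1 - N/j)`. On the other hand `(N-1)! = ∏_{0<j≤n} (2j) · ∏_{0<j≤n} (N-2j)
= (-1)^n (2^n n!)² ∏ (1 - N/(2j))`, so `C(N-1,n) = (-1)^n 2^(N-1) ∏ (1 - N/(2j))`. Hence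
`2^(N-1) = ∏ (1 - N/j)/∏ (1 - N/(2j)) ≡ 1 - ∑ N/j + ∑ N/(2j) (mod p²)`. -/
def S_W : Prop := ∀ (p : ℕ) [Fact p.Prime] (r : ℕ), p ≠ 2 → 1 ≤ r →
  I p 2 (4 ^ (p ^ r - 1) * w (p ^ r) - 1 / 2) ∧
  I p 2 ((2 : ℚ) ^ (p ^ r - 1) - (1 - 1 / 2 * ∑ j ∈ range (p ^ r / 2), ((p ^ r : ℕ) : ℚ) / ((j : ℚ) + 1)))

/-- **S_D** (`x = 16`). -/
def S_D : Prop := ∀ (p : ℕ) [Fact p.Prime] (r : ℕ), p ≠ 2 → 1 ≤ r →
  I p (2 * r + 2) (SS 16 (p ^ r) - ((p ^ r : ℕ) : ℚ) ^ 2 * (4 * w (p ^ r) ^ 2 -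
    ∑ j ∈ range (p ^ r / 2), ((p ^ r : ℕ) : ℚ) / ((j : ℚ) + 1)))

/-- **S_E** (`x = -8`). -/
def S_E : Prop := ∀ (p : ℕ) [Fact p.Prime] (r : ℕ), p ≠ 2 → 1 ≤ r →
  I p (2 * r + 2) (SS (-8) (p ^ r) - ((p ^ r : ℕ) : ℚ) ^ 2 * (8 ^ (p ^ r) * w (p ^ r) ^ 3 -
    1 / 2 * ∑ j ∈ range (p ^ r / 2), ((p ^ r : ℕ) : ℚ) / ((j : ℚ) + 1)))

end Pool.Agent.H547.CV
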